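import Pool.Agent.Lib.MP_65a179_nt.Free.Ratio

/-!
An explicit set all of whose three-term geometric progressions have ratio close to one, with gaps
below every power of the logarithm.  The set is cut out by congruences modulo powers of two.
-/

namespace Pool.Agent.Lib.MP_65a179_nt.Free

/-- the set -/
def SA : Set ℕ :=
  {n | 0 < n ∧ ∃ x : ℤ, (n : ℤ) = 1 + 2 ^ (8 * lev n + 15) * (2 * gg (lev n) (ll (lev n) n) + 1) +
    2 ^ (8 * lev n + 15) * 2 ^ (8 * lev n + 15) * x}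

theorem adic_lt {F x y z : ℤ} (hF : 0 < F)
    (h : (1 + 2 * F * (2 * x + 1)) * (1 + 2 * F * (2 * z)) = (1 + 2 * F * y) * (1 + 2 * F * y)) :
    False := by
  have h1 : 2 * F * (1 + 2 * (x + z + 2 * F * (2 * x + 1) * z - y - F * y * y)) = 0 := by
    linear_combination h
  have h2 := (mul_eq_zero.1 h1).resolve_left (by omega)
  omega

theorem adic_eq {E p q r x y z : ℤ} (hE : 0 < E)
    (h : (1 + E * (2 * p + 1) + E * E * x) * (1 + E * (2 * r + 1) + E * E * z) =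
      (1 + E * (2 * q + 1) + E * E * y) * (1 + E * (2 * q + 1) + E * E * y)) :
    E ∣ 2 * (p + r - 2 * q) := by
  have h1 : E * (2 * (p + r - 2 * q) - E * (2 * y - x - z + (2 * q + 1 + E * y) ^ 2 -
      (2 * p + 1 + E * x) * (2 * r + 1 + E * z))) = 0 := by
    linear_combination h
  exact ⟨_, sub_eq_zero.1 ((mul_eq_zero.1 h1).resolve_left hE.ne')⟩

theorem freea_lt {a b c : ℕ} (ha : a ∈ SA) (hb : b ∈ SA) (hc : c ∈ SA) (h : a * c = b * b)
    (hab : a < b) : b ^ 2 ^ (lev c + 1) ^ 2 < 2 * a ^ 2 ^ (lev c + 1) ^ 2 := by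
  obtain ⟨ha0, x, hx⟩ := ha
  obtain ⟨hb0, y, hy⟩ := hb
  obtain ⟨hc0, z, hz⟩ := hc
  have hbc : b < c := by
    by_contra hn
    have := Nat.mul_lt_mul_of_lt_of_le hab (not_lt.1 hn) hb0
    omega
  have l1 := lev_mono hab.le
  have l2 := lev_mono hbc.le
  have h1 : (a : ℤ) * c = b * b := by exact_mod_cast h
  have e : lev c ≤ lev a := by
    by_contra hn
    obtain ⟨u, hu⟩ : ∃ u, 8 * lev b + 15 = 8 * lev a + 14 + 1 + u := ⟨8 * (lev b - lev a), by omega⟩
    obtain ⟨v, hv⟩ : ∃ v, 8 * lev c + 15 = 8 * lev a + 14 + 2 + v :=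
      ⟨8 * (lev c - lev a) - 1, by omega⟩
    rw [hu] at hy
    rw [hv] at hz
    generalize (gg (lev a) (ll (lev a) a) : ℤ) = p at hx
    generalize (gg (lev b) (ll (lev b) b) : ℤ) = q at hy
    generalize (gg (lev c) (ll (lev c) c) : ℤ) = r at hz
    rw [show 8 * lev a + 15 = 8 * lev a + 14 + 1 by omega] at hx
    generalize 8 * lev a + 14 = k at hx hy hz
    refine adic_lt (F := 2 ^ k) (x := p + 2 ^ k * x)
      (y := 2 ^ u * (2 * q + 1 + 2 ^ (k + 1 + u) * y))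
      (z := 2 ^ v * (2 * r + 1 + 2 ^ (k + 2 + v) * z)) (by positivity) ?_
    convert h1 using 2
    · rw [hx]
      ring
    · rw [hz]
      ring
    · rw [hy]
      ring
    · rw [hy]
      ring
  have e1 : lev b = lev a := by omega
  have e2 : lev c = lev a := by omega
  rw [e1] at hy
  rw [e2] at hz ⊢
  rw [hx, hy, hz] at h1
  have h2 := adic_eq (by positivity) h1
  have g1 := gg_le (lev a) (ll (lev a) a)
  have g2 := gg_le (lev a) (ll (lev a) b)
  have g3 := gg_le (lev a) (ll (lev a) c)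
  have g4 : (2 : ℤ) ^ (8 * lev a + 15) = 8 * ((2 ^ (8 * lev a + 12) : ℕ) : ℤ) := by
    push_cast
    ring
  have g5 : 0 < 2 ^ (8 * lev a + 12) := pow_pos two_pos _
  rw [g4] at h2
  have h3 := Int.eq_zero_of_abs_lt_dvd h2 (abs_lt.2 ⟨by omega, by omega⟩)
  obtain ⟨m1, m2⟩ := log_ap (pow_ne_zero (2 ^ (lev a + 1) ^ 2) ha0.ne')
    (pow_ne_zero (2 ^ (lev a + 1) ^ 2) hb0.ne') (pow_ne_zero (2 ^ (lev a + 1) ^ 2) hc0.ne')
    (by rw [← mul_pow, ← mul_pow, h])
  have m3 := ll_lt hb0.ne'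
  rw [e1] at m3
  have m4 : ll (lev a) a = ll (lev a) b :=
    gg_free (c := ll (lev a) c) (ll_lt ha0.ne') m3 m1 m2 (by omega)
  have m5 := Nat.lt_pow_succ_log_self one_lt_two (b ^ 2 ^ (lev a + 1) ^ 2)
  have m6 := Nat.pow_log_le_self 2 (pow_ne_zero (2 ^ (lev a + 1) ^ 2) ha0.ne')
  unfold ll at m4
  rw [← m4] at m5
  exact m5.trans_le ((pow_succ' 2 _).trans_le (Nat.mul_le_mul_left 2 m6))

theorem ll_mono (j : ℕ) {a b : ℕ} (h : a ≤ b) : ll j a ≤ ll j b :=
  Nat.log_mono_right (Nat.pow_le_pow_left h _)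

theorem ll_step {j y D : ℕ} (hy : 0 < y) (h : 2 * D * 2 ^ (j + 1) ^ 2 ≤ y) :
    ll j (y + D) ≤ ll j y + 1 := by
  unfold ll
  generalize 2 ^ (j + 1) ^ 2 = K at h
  rw [← Nat.log_mul_base one_lt_two (pow_ne_zero K hy.ne')]
  refine Nat.log_mono_right ?_
  have y0 : (0 : ℝ) < y := by exact_mod_cast hy
  have h1 : (2 : ℝ) * D * K ≤ y := by exact_mod_cast h
  have h2 : (y + D : ℝ) ≤ y * Real.exp (D / y) := by
    have h3 := mul_le_mul_of_nonneg_left (Real.add_one_le_exp (D / y)) y0.le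
    rwa [mul_add, mul_div_cancel₀ _ y0.ne', mul_one, add_comm] at h3
  have h3 : Real.exp (D / y) ^ K ≤ 2 := by
    rw [← Real.exp_nat_mul, ← Real.le_log_iff_exp_le two_pos, ← mul_div_assoc, div_le_iff₀ y0]
    nlinarith [Real.log_two_gt_d9]
  have h4 : (y + D : ℝ) ^ K ≤ y ^ K * 2 :=
    (pow_le_pow_left₀ (by positivity) h2 K).trans
      ((mul_pow _ _ _).trans_le (mul_le_mul_of_nonneg_left h3 (by positivity)))
  exact_mod_cast h4

theorem exists_window (F : ℕ → ℕ) {y W : ℕ} (h : F (y + 4 * W) ≤ F y + 3) :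
    ∃ p, y ≤ p ∧ p + W ≤ y + 4 * W ∧ F (p + W) ≤ F p := by
  by_contra hn
  push Not at hn
  have h1 := hn y le_rfl (by omega)
  have h2 := hn (y + W) (by omega) (by omega)
  have h3 := hn (y + W + W) (by omega) (by omega)
  have h4 := hn (y + W + W + W) (by omega) (by omega)
  rw [show y + 4 * W = y + W + W + W + W by omega] at h
  omega

theorem exists_class (p : ℕ) (R : ℤ) {M : ℤ} (hM : 0 < M) :
    ∃ t : ℕ, p ≤ t ∧ (t : ℤ) < p + M ∧ ∃ x : ℤ, (t : ℤ) = R + M * x := by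
  have h1 := Int.emod_nonneg (R - p) hM.ne'
  have h2 := Int.emod_lt_of_pos (R - p) hM
  have h3 := Int.mul_ediv_add_emod (R - p) M
  obtain ⟨s, hs⟩ := Int.eq_ofNat_of_zero_le h1
  refine ⟨p + s, by omega, by omega, -((R - p) / M), ?_⟩
  push_cast
  linarith

theorem exists_gooda {x : ℕ} (hx : 2 ≤ x) (hj : 3 ≤ lev x) :
    ∃ t ∈ SA, x < t ∧ t ≤ x + 4 * 2 ^ (16 * lev x + 46) := by
  have h1 := hr_le hx hj
  have h2 : 2 * (4 * 2 ^ (16 * lev x + 46)) * 2 ^ (lev x + 1 + 1) ^ 2 ≤ x := by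
    refine le_trans ?_ h1
    rw [hr, show (8 : ℕ) = 2 ^ 3 by norm_num, show (4 : ℕ) * 2 ^ (16 * lev x + 46) =
      2 ^ (16 * lev x + 48) by ring, ← pow_succ', ← pow_add, ← pow_add, ← pow_mul]
    exact Nat.pow_le_pow_right two_pos (by nlinarith)
  have h3 : 2 * (4 * 2 ^ (16 * lev x + 46)) * 2 ^ (lev x + 1) ^ 2 ≤ x :=
    le_trans (Nat.mul_le_mul_left _ (Nat.pow_le_pow_right two_pos (by nlinarith))) h2
  have h4 : 2 * (4 * 2 ^ (16 * lev x + 46)) ≤ x :=
    (Nat.le_mul_of_pos_right _ (pow_pos two_pos _)).trans h3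
  have hW : ∀ i, i ≤ lev x + 1 → (2 : ℤ) ^ (8 * i + 15) * 2 ^ (8 * i + 15) ≤
      ((2 ^ (16 * lev x + 46) : ℕ) : ℤ) := fun i hi => by
    rw [← pow_add]
    push_cast
    exact pow_le_pow_right₀ one_le_two (by omega)
  generalize 2 ^ (16 * lev x + 46) = W at h2 h3 h4 hW ⊢
  have s1 := ll_step (y := x + 1) (by omega) (h3.trans (Nat.le_succ x))
  have s2 := ll_step (y := x + 1) (by omega) (h2.trans (Nat.le_succ x))
  have s3 := lev_two_mul (x := x) (n := x + 1 + 4 * W) (by omega) (by omega)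
  have s4 := lev_mono (Nat.le_succ x)
  obtain ⟨p, p1, p2, p3⟩ := exists_window
    (fun n => lev n + ll (lev x) n + ll (lev x + 1) n) (y := x + 1) (W := W)
    (by simp only [Nat.succ_eq_add_one] at s4; omega)
  have p4 := lev_mono (show x ≤ p by omega)
  have p5 := lev_mono (show p ≤ x + 1 + 4 * W by omega)
  obtain ⟨t, t1, t2, t3⟩ := exists_class p
    (1 + 2 ^ (8 * lev p + 15) * (2 * gg (lev p) (ll (lev p) p) + 1))
    (M := 2 ^ (8 * lev p + 15) * 2 ^ (8 * lev p + 15)) (by positivity)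
  have t4 : t < p + W := by
    have := hW (lev p) (by omega)
    omega
  have a1 := lev_mono t1
  have a2 := lev_mono t4.le
  have b1 := ll_mono (lev x) t1
  have b2 := ll_mono (lev x) t4.le
  have c1 := ll_mono (lev x + 1) t1
  have c2 := ll_mono (lev x + 1) t4.le
  have e1 : lev t = lev p := by omega
  have e2 : ll (lev p) t = ll (lev p) p := by
    rcases (show lev p = lev x ∨ lev p = lev x + 1 by omega) with e | e <;> rw [e] <;> omega
  refine ⟨t, ⟨by omega, ?_⟩, by omega, by omega⟩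
  rw [e1, e2]
  exact t3

theorem win_log {x : ℕ} (hx : 3 ≤ x) :
    (4 * 2 ^ (16 * lev x + 46) : ℝ) ≤ 2 ^ 64 * Real.exp (14 * √(Real.log (Real.log x))) := by
  have hx0 : (0 : ℝ) < x := by exact_mod_cast (by omega : 0 < x)
  have hl1 : 1 ≤ Real.log x := by
    rw [Real.le_log_iff_exp_le hx0]
    exact Real.exp_one_lt_three.le.trans (by exact_mod_cast hx)
  have hll : 0 ≤ Real.log (Real.log x) := Real.log_nonneg hl1
  have l2 := Real.log_two_gt_d9
  have l2' := Real.log_two_lt_d9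
  have h1 : (2 : ℝ) ^ lev x ^ 2 ≤ 2 * Real.log x := by
    have h2 : (2 : ℝ) ^ (2 ^ lev x ^ 2 : ℕ) ≤ x := by
      exact_mod_cast (Nat.pow_le_pow_right two_pos (le_log (by omega))).trans
        (Nat.pow_log_le_self 2 (by omega))
    have h3 := Real.log_le_log (by positivity) h2
    rw [Real.log_pow] at h3
    push_cast at h3
    have h4 : (0 : ℝ) ≤ 2 ^ lev x ^ 2 := by positivity
    nlinarith
  have h2 : (lev x : ℝ) ^ 2 * Real.log 2 ≤ Real.log 2 + Real.log (Real.log x) := by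
    have h3 := Real.log_le_log (by positivity) h1
    rw [Real.log_pow, Real.log_mul two_ne_zero (by linarith)] at h3
    push_cast at h3
    exact h3
  set s := √(Real.log (Real.log x)) with hs
  have hs0 : 0 ≤ s := Real.sqrt_nonneg _
  have hs2 : s ^ 2 = Real.log (Real.log x) := Real.sq_sqrt hll
  have h3 : (lev x : ℝ) ≤ 1 + 5 / 4 * s := by
    refine (pow_le_pow_iff_left₀ (by positivity) (by positivity) two_ne_zero).1 ?_
    have : (lev x : ℝ) ^ 2 * Real.log 2 ≤ (1 + 5 / 4 * s) ^ 2 * Real.log 2 := by nlinarith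
    exact le_of_mul_le_mul_right this (by linarith)
  have h4 : (2 : ℝ) ^ (16 * lev x) ≤ 2 ^ 16 * Real.exp (14 * s) := by
    have e : ∀ k : ℕ, (2 : ℝ) ^ k = Real.exp (k * Real.log 2) := fun k => by
      rw [Real.exp_nat_mul, Real.exp_log two_pos]
    rw [e, e, ← Real.exp_add, Real.exp_le_exp]
    push_cast
    nlinarith
  calc (4 * 2 ^ (16 * lev x + 46) : ℝ) = 2 ^ 48 * 2 ^ (16 * lev x) := by ring
    _ ≤ 2 ^ 48 * (2 ^ 16 * Real.exp (14 * s)) := by gcongr
    _ = 2 ^ 64 * Real.exp (14 * s) := by ring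

theorem maina : ∃ S : Set ℕ, (∀ n ∈ S, 0 < n) ∧
    (∀ a ∈ S, ∀ b ∈ S, ∀ c ∈ S, ∀ r : ℚ, (b : ℚ) = r * a → (c : ℚ) = r * b →
      ((r : ℝ) - 1) * Real.log c < 1) ∧
    ∃ A : ℝ, ∀ x : ℕ, 3 ≤ x → ∃ t ∈ S, x < t ∧
      (t : ℝ) - x ≤ A * Real.exp (14 * √(Real.log (Real.log x))) := by
  refine ⟨SA, fun n hn => hn.1, fun a ha b hb c hc r h1 h2 => ?_, ?_⟩
  · have hl : 0 ≤ Real.log c := Real.log_natCast_nonneg c
    rcases le_or_gt r 1 with hr | hr
    · have : (r : ℝ) ≤ 1 := by exact_mod_cast hr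
      nlinarith
    have h3 : (a : ℚ) * c = b * b := by
      rw [h2]
      linear_combination (-b : ℚ) * h1
    have a0 : (0 : ℚ) < a := by exact_mod_cast ha.1
    have h4 : (a : ℚ) < b := by rw [h1]; nlinarith
    have h5 := freea_lt ha hb hc (by exact_mod_cast h3) (by exact_mod_cast h4)
    have h6 := lt_two_pow c
    generalize 2 ^ (lev c + 1) ^ 2 = K at h5 h6
    have a1 : (0 : ℝ) < a := by exact_mod_cast ha.1
    have c1 : (0 : ℝ) < c := by exact_mod_cast hc.1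
    have r1 : (1 : ℝ) < r := by exact_mod_cast hr
    have e1 : (b : ℝ) = r * a := by exact_mod_cast h1
    have h7 : (b : ℝ) ^ K < 2 * (a : ℝ) ^ K := by exact_mod_cast h5
    rw [e1, mul_pow] at h7
    have h8 := lt_of_mul_lt_mul_right h7 (by positivity)
    have h9 := one_add_mul_le_pow (show (-2 : ℝ) ≤ r - 1 by linarith) K
    rw [add_sub_cancel] at h9
    have h10 : Real.log c ≤ K := by
      have : (c : ℝ) ≤ 2 ^ K := by exact_mod_cast h6.le
      refine (Real.log_le_log c1 this).trans ?_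
      rw [Real.log_pow]
      exact mul_le_of_le_one_right (by positivity) (by linarith [Real.log_two_lt_d9])
    nlinarith
  · obtain ⟨x2, hx2⟩ : ∃ x2, 3 ≤ lev x2 := ⟨2 ^ 2 ^ 3 ^ 2, by
      rw [lev, Nat.log_pow one_lt_two, Nat.log_pow one_lt_two, Nat.sqrt_eq']⟩
    have hx3 := hx2.trans (lev_mono (Nat.le_add_right x2 2))
    obtain ⟨t0, ht0, ht1, -⟩ := exists_gooda (Nat.le_add_left 2 x2) hx3
    refine ⟨2 ^ 64 + t0, fun x hx => ?_⟩
    have h1 : 1 ≤ Real.exp (14 * √(Real.log (Real.log x))) := Real.one_le_exp (by positivity)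
    have h3 : (t0 : ℝ) ≤ t0 * Real.exp (14 * √(Real.log (Real.log x))) :=
      le_mul_of_one_le_right (by positivity) h1
    have h4 : (0 : ℝ) ≤ x := by positivity
    have h5 : (0 : ℝ) ≤ t0 := by positivity
    have h8 := win_log hx
    rw [add_mul]
    rcases le_total x2 x with h6 | h6
    · obtain ⟨t, ht, ht2, ht3⟩ := exists_gooda (by omega) (hx2.trans (lev_mono h6))
      have h7 : (t : ℝ) ≤ x + 4 * 2 ^ (16 * lev x + 46) := by exact_mod_cast ht3
      exact ⟨t, ht, ht2, by linarith⟩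
    · exact ⟨t0, ht0, by omega, by linarith⟩

end Pool.Agent.Lib.MP_65a179_nt.Free
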