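import Mathlib

/-!
The sum of the squares of the exponents, and smooth numbers in a short window.
-/

open Finset

namespace Pool.Agent.Lib.MP_65a179_nt.Free

/-- the sum of the squares of the exponents in the prime factorisation -/
def sq2 (n : ℕ) : ℕ := ∑ p ∈ n.primeFactors, n.factorization p ^ 2

theorem sq2_le {n : ℕ} (hn : n ≠ 0) : sq2 n ≤ Nat.log 2 n ^ 2 := by
  have h1 : 2 ^ (∑ p ∈ n.primeFactors, n.factorization p) ≤ n := by
    rw [← prod_pow_eq_pow_sum]
    refine le_trans (prod_le_prod' fun p hp => Nat.pow_le_pow_left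
      (Nat.prime_of_mem_primeFactors hp).two_le _) (le_of_eq ?_)
    exact Nat.prod_factorization_pow_eq_self hn
  exact (sum_sq_le_sq_sum_of_nonneg fun _ _ => Nat.zero_le _).trans
    (Nat.pow_le_pow_left (Nat.le_log_of_pow_le one_lt_two h1) 2)

theorem sq2_eq {n : ℕ} {s : Finset ℕ} (hs : n.primeFactors ⊆ s) :
    (sq2 n : ℤ) = ∑ p ∈ s, (n.factorization p : ℤ) ^ 2 := by
  rw [sq2]
  push_cast
  refine sum_subset hs fun p _ hp => ?_
  rw [← Nat.support_factorization, Finsupp.notMem_support_iff] at hp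
  simp [hp]

/-- strict convexity along a geometric progression -/
theorem sq2_convex {a b c : ℕ} (ha : a ≠ 0) (hb : b ≠ 0) (hc : c ≠ 0) (h : a * c = b * b)
    (hab : a ≠ b) : 2 * sq2 b + 2 ≤ sq2 a + sq2 c := by
  have hf : ∀ p, a.factorization p + c.factorization p = b.factorization p + b.factorization p :=
    fun p => by
      have := congrArg (fun n => n.factorization p) h
      simpa only [Nat.factorization_mul ha hc, Nat.factorization_mul hb hb, Finsupp.add_apply]
        using this
  obtain ⟨q, hq⟩ : ∃ q, a.factorization q ≠ b.factorization q := by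
    by_contra hn
    push Not at hn
    exact hab (Nat.eq_of_factorization_eq ha hb hn)
  set s := insert q (a.primeFactors ∪ b.primeFactors ∪ c.primeFactors) with hs
  have h1 := sq2_eq (n := a) (s := s) fun p hp => by simp only [hs, mem_insert, mem_union]; tauto
  have h2 := sq2_eq (n := b) (s := s) fun p hp => by simp only [hs, mem_insert, mem_union]; tauto
  have h3 := sq2_eq (n := c) (s := s) fun p hp => by simp only [hs, mem_insert, mem_union]; tauto
  have h4 : (sq2 a : ℤ) + sq2 c - 2 * sq2 b =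
      ∑ p ∈ s, 2 * ((a.factorization p : ℤ) - b.factorization p) ^ 2 := by
    rw [h1, h2, h3, mul_sum, ← sum_add_distrib, ← sum_sub_distrib]
    refine sum_congr rfl fun p _ => ?_
    have h5 : (c.factorization p : ℤ) = 2 * b.factorization p - a.factorization p := by
      have := hf p
      omega
    rw [h5]
    ring
  have h5 := single_le_sum (s := s)
    (f := fun p => 2 * ((a.factorization p : ℤ) - b.factorization p) ^ 2)
    (fun p _ => by positivity) (mem_insert_self q _)
  have h6 : 0 < ((a.factorization q : ℤ) - b.factorization q) ^ 2 :=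
    sq_pos_of_ne_zero (by omega)
  omega

theorem card_primes {s : Finset ℕ} {h : ℕ} (hs : ∀ p ∈ s, p.Prime ∧ p ≤ 4 * h) :
    s.card ≤ 2 * h := by
  have h1 : (Icc 1 (2 * h)).card = 2 * h := by simp
  rw [← h1]
  refine card_le_card_of_injOn (fun p => (p + 1) / 2) (fun p hp => ?_) fun p hp q hq e => ?_
  · have h2 := (hs p hp).1.two_le
    have h3 := (hs p hp).2
    simp only [coe_Icc, Set.mem_Icc]
    omega
  · have h2 := (hs p hp).1.two_le
    have h3 := (hs q hq).1.two_le
    have h4 := (hs p hp).1.eq_two_or_odd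
    have h5 := (hs q hq).1.eq_two_or_odd
    simp only at e
    omega

open Classical in
/-- at least a quarter of a short window has a prime factor larger than the length -/
theorem card_rough {x h : ℕ} (hh : 0 < h) (hx : (8 * h) ^ 4 ≤ x) :
    h ≤ ((range (4 * h)).filter fun i => ∃ p : ℕ, p.Prime ∧ 4 * h < p ∧ p ∣ x + 1 + i).card := by
  set A := (range (4 * h)).filter fun i => ¬∃ p : ℕ, p.Prime ∧ 4 * h < p ∧ p ∣ x + 1 + i with hA
  have h0 := card_filter_add_card_filter_not (s := range (4 * h))
    fun i => ∃ p : ℕ, p.Prime ∧ 4 * h < p ∧ p ∣ x + 1 + i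
  rw [card_range, ← hA] at h0
  suffices A.card ≤ 3 * h by omega
  set C := (x + 4 * h).choose (4 * h) with hC
  have hC0 : C ≠ 0 := (Nat.choose_pos (by omega)).ne'
  have h1 : ∏ i ∈ A, (x + 1 + i) ∣ (4 * h).factorial * C := by
    rw [hC, ← Nat.ascFactorial_eq_factorial_mul_choose, Nat.ascFactorial_eq_prod_range]
    exact prod_dvd_prod_of_subset _ _ _ (filter_subset _ _)
  have h2 : C = (∏ p ∈ C.primeFactors.filter (· ≤ 4 * h), p ^ C.factorization p) *
      ∏ p ∈ C.primeFactors.filter (fun p => ¬p ≤ 4 * h), p ^ C.factorization p := by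
    rw [prod_filter_mul_prod_filter_not]
    exact (Nat.prod_factorization_pow_eq_self hC0).symm
  have h3 : Nat.Coprime (∏ i ∈ A, (x + 1 + i))
      (∏ p ∈ C.primeFactors.filter (fun p => ¬p ≤ 4 * h), p ^ C.factorization p) := by
    refine Nat.Coprime.prod_left fun i hi => Nat.Coprime.prod_right fun p hp => ?_
    have hp1 := Nat.prime_of_mem_primeFactors (mem_filter.1 hp).1
    refine Nat.Coprime.pow_right _ (Nat.Coprime.symm (hp1.coprime_iff_not_dvd.2 fun hd => ?_))
    exact (mem_filter.1 hi).2 ⟨p, hp1, not_le.1 (mem_filter.1 hp).2, hd⟩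
  rw [h2, ← mul_assoc] at h1
  have h4 := h3.dvd_of_dvd_mul_right h1
  have h5 : (∏ p ∈ C.primeFactors.filter (· ≤ 4 * h), p ^ C.factorization p) ≤
      (x + 4 * h) ^ (2 * h) := by
    refine (prod_le_pow_card _ _ (x + 4 * h) fun p _ =>
      Nat.pow_factorization_choose_le (by omega)).trans (Nat.pow_le_pow_right (by omega) ?_)
    exact card_primes fun p hp =>
      ⟨Nat.prime_of_mem_primeFactors (mem_filter.1 hp).1, (mem_filter.1 hp).2⟩
  have h6 : x ^ A.card ≤ ∏ i ∈ A, (x + 1 + i) := pow_card_le_prod _ _ _ fun i _ => by omega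
  have h7 := Nat.le_of_dvd (mul_pos (Nat.factorial_pos _) (prod_pos fun p hp =>
    pow_pos (Nat.prime_of_mem_primeFactors (mem_filter.1 hp).1).pos _)) h4
  have h8 : 8 * h ≤ x := (Nat.le_self_pow (by norm_num) _).trans hx
  have h9 : (4 * h).factorial * (x + 4 * h) ^ (2 * h) ≤ x ^ (3 * h) := by
    calc (4 * h).factorial * (x + 4 * h) ^ (2 * h)
        ≤ (4 * h) ^ (4 * h) * (2 * x) ^ (2 * h) :=
          Nat.mul_le_mul (Nat.factorial_le_pow _) (Nat.pow_le_pow_left (by omega) _)
      _ = (4 * h) ^ (4 * h) * 2 ^ (2 * h) * x ^ (2 * h) := by rw [mul_pow 2 x, mul_assoc]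
      _ ≤ (4 * h) ^ (4 * h) * 2 ^ (4 * h) * x ^ (2 * h) := by
          gcongr
          · norm_num
          · omega
      _ = ((8 * h) ^ 4) ^ h * x ^ (2 * h) := by
          rw [← mul_pow, ← pow_mul, show 4 * h * 2 = 8 * h by ring]
      _ ≤ x ^ h * x ^ (2 * h) := by gcongr
      _ = x ^ (3 * h) := by rw [← pow_add, show h + 2 * h = 3 * h by ring]
  exact (Nat.pow_le_pow_iff_right (by omega)).1
    (h6.trans (h7.trans ((Nat.mul_le_mul_left _ h5).trans h9)))

end Pool.Agent.Lib.MP_65a179_nt.Free
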