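import Mathlib

/-! Behrend–Rankin sets: no five-term quadratic progression with nonzero second difference. -/

namespace Pool.Agent.Lib.MP_65a179_nt.Free

open Finset

theorem digits_zero (b : ℤ) (hb : 0 < b) :
    ∀ (d : ℕ) (y : Fin d → ℤ), (∀ t, |y t| < b) → ∑ t, y t * b ^ (t : ℕ) = 0 → ∀ t, y t = 0 := by
  intro d
  induction d with
  | zero => intro y _ _ t; exact t.elim0
  | succ d ih =>
    intro y hy hs
    rw [Fin.sum_univ_succ] at hs
    have h1 : ∑ t : Fin d, y t.succ * b ^ ((t.succ : Fin (d + 1)) : ℕ)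
        = b * ∑ t : Fin d, y t.succ * b ^ (t : ℕ) := by
      rw [Finset.mul_sum]
      refine Finset.sum_congr rfl fun t _ => ?_
      rw [Fin.val_succ, pow_succ]; ring
    rw [h1] at hs
    simp only [Fin.val_zero, pow_zero, mul_one] at hs
    have hdvd : b ∣ y 0 := ⟨-∑ t : Fin d, y t.succ * b ^ (t : ℕ), by linarith⟩
    have h0 : y 0 = 0 := Int.eq_zero_of_abs_lt_dvd hdvd (hy 0)
    have h2 : ∑ t : Fin d, y t.succ * b ^ (t : ℕ) = 0 := by
      rw [h0, zero_add] at hs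
      exact (mul_eq_zero.1 hs).resolve_left hb.ne'
    intro t
    refine Fin.cases h0 (fun s => ?_) t
    exact ih (fun s => y s.succ) (fun s => hy _) h2 s

theorem digits_lt (b : ℕ) :
    ∀ (d : ℕ) (x : Fin d → ℕ), (∀ t, x t < b) → ∑ t, x t * b ^ (t : ℕ) < b ^ d := by
  intro d
  induction d with
  | zero => intro x _; simp
  | succ d ih =>
    intro x hx
    rw [Fin.sum_univ_castSucc]
    have h1 := ih (fun s => x s.castSucc) (fun s => hx _)
    simp only [Fin.val_castSucc, Fin.val_last] at h1 ⊢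
    have h2 : x (Fin.last d) + 1 ≤ b := hx _
    calc ∑ t : Fin d, x t.castSucc * b ^ (t : ℕ) + x (Fin.last d) * b ^ d
        < b ^ d + x (Fin.last d) * b ^ d := by omega
      _ = (x (Fin.last d) + 1) * b ^ d := by ring
      _ ≤ b * b ^ d := Nat.mul_le_mul_right _ h2
      _ = b ^ (d + 1) := by ring

/-- A dense set of integers below `(4B)^d` in which every five-term progression with vanishing
third differences has vanishing second difference. -/
theorem exists_behrend5 (d B : ℕ) (hB : 1 ≤ B) :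
    ∃ A : Finset ℕ, (∀ a ∈ A, a < (4 * B) ^ d) ∧ B ^ d ≤ A.card * (d * B ^ 2 + 1) ∧
      ∀ a₀ ∈ A, ∀ a₁ ∈ A, ∀ a₂ ∈ A, ∀ a₃ ∈ A, ∀ a₄ ∈ A,
        (a₀ : ℤ) - 3 * a₁ + 3 * a₂ - a₃ = 0 → (a₁ : ℤ) - 3 * a₂ + 3 * a₃ - a₄ = 0 →
        (a₀ : ℤ) - 2 * a₁ + a₂ = 0 := by
  classical
  set box : Finset (Fin d → ℕ) := Fintype.piFinset fun _ => range B with hbox
  have hmem : ∀ x ∈ box, ∀ t, x t < B := fun x hx t => by
    simpa using (Fintype.mem_piFinset.1 hx) t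
  have hcard : box.card = B ^ d := by simp [hbox, Fintype.card_piFinset]
  set q : (Fin d → ℕ) → ℕ := fun x => ∑ t, x t ^ 2 with hq
  have hqm : ∀ x ∈ box, q x ∈ range (d * B ^ 2 + 1) := by
    intro x hx
    rw [mem_range, Nat.lt_succ_iff]
    calc q x ≤ ∑ _t : Fin d, B ^ 2 :=
          Finset.sum_le_sum fun t _ => Nat.pow_le_pow_left (hmem x hx t).le 2
      _ = d * B ^ 2 := by simp
  obtain ⟨ρ, -, hρ⟩ := Finset.exists_max_image (range (d * B ^ 2 + 1))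
    (fun ρ => (box.filter fun x => q x = ρ).card) ⟨0, by simp⟩
  set S := box.filter fun x => q x = ρ with hS
  have hSc : B ^ d ≤ S.card * (d * B ^ 2 + 1) := by
    rw [← hcard, Finset.card_eq_sum_card_fiberwise hqm]
    calc ∑ r ∈ range (d * B ^ 2 + 1), (box.filter fun x => q x = r).card
        ≤ ∑ _r ∈ range (d * B ^ 2 + 1), S.card := Finset.sum_le_sum fun r hr => hρ r hr
      _ = S.card * (d * B ^ 2 + 1) := by simp [mul_comm]
  set φ : (Fin d → ℕ) → ℕ := fun x => ∑ t, x t * (4 * B) ^ (t : ℕ) with hφ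
  have hφc : ∀ x, (φ x : ℤ) = ∑ t, (x t : ℤ) * (4 * (B : ℤ)) ^ (t : ℕ) := by
    intro x; simp [hφ]
  have hb : (0 : ℤ) < 4 * (B : ℤ) := by positivity
  have hSb : ∀ x ∈ S, ∀ t, (0 : ℤ) ≤ x t ∧ (x t : ℤ) < B := fun x hx t =>
    ⟨by positivity, by exact_mod_cast hmem x (mem_filter.1 hx).1 t⟩
  have hinj : Set.InjOn φ S := by
    intro x hx y hy hxy
    have h := digits_zero _ hb d (fun t => (x t : ℤ) - y t) (fun t => by
      have h1 := hSb x hx t; have h2 := hSb y hy t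
      rw [abs_lt]; constructor <;> linarith [h1.1, h1.2, h2.1, h2.2]) (by
      have h1 : (φ x : ℤ) = φ y := by rw [hxy]
      rw [hφc, hφc] at h1
      simp only [sub_mul, Finset.sum_sub_distrib]; linarith)
    funext t
    have := h t
    exact_mod_cast sub_eq_zero.1 this
  have third : ∀ x ∈ S, ∀ y ∈ S, ∀ z ∈ S, ∀ w ∈ S,
      (φ x : ℤ) - 3 * φ y + 3 * φ z - φ w = 0 → ∀ t, (x t : ℤ) - 3 * y t + 3 * z t - w t = 0 := by
    intro x hx y hy z hz w hw h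
    refine digits_zero _ hb d (fun t => (x t : ℤ) - 3 * y t + 3 * z t - w t) (fun t => ?_) ?_
    · have h1 := hSb x hx t; have h2 := hSb y hy t; have h3 := hSb z hz t; have h4 := hSb w hw t
      rw [abs_lt]; constructor <;> linarith [h1.1, h1.2, h2.1, h2.2, h3.1, h3.2, h4.1, h4.2]
    · rw [hφc, hφc, hφc, hφc, Finset.mul_sum, Finset.mul_sum, ← Finset.sum_sub_distrib,
        ← Finset.sum_add_distrib, ← Finset.sum_sub_distrib] at h
      rw [← h]
      exact Finset.sum_congr rfl fun t _ => by ring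
  refine ⟨S.image φ, ?_, ?_, ?_⟩
  · intro a ha
    obtain ⟨x, hx, rfl⟩ := mem_image.1 ha
    exact digits_lt _ d x fun t => by have := hmem x (mem_filter.1 hx).1 t; omega
  · rwa [Finset.card_image_of_injOn hinj]
  · intro a₀ h₀ a₁ h₁ a₂ h₂ a₃ h₃ a₄ h₄ e₁ e₂
    obtain ⟨x₀, hx₀, rfl⟩ := mem_image.1 h₀
    obtain ⟨x₁, hx₁, rfl⟩ := mem_image.1 h₁
    obtain ⟨x₂, hx₂, rfl⟩ := mem_image.1 h₂
    obtain ⟨x₃, hx₃, rfl⟩ := mem_image.1 h₃
    obtain ⟨x₄, hx₄, rfl⟩ := mem_image.1 h₄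
    have t₁ := third _ hx₀ _ hx₁ _ hx₂ _ hx₃ e₁
    have t₂ := third _ hx₁ _ hx₂ _ hx₃ _ hx₄ e₂
    have hqq : ∀ x ∈ S, ∑ t, (x t : ℤ) ^ 2 = ρ := fun x hx => by
      have := (mem_filter.1 hx).2
      simp only [hq] at this
      exact_mod_cast this
    have hsum : ∑ t, 6 * ((x₀ t : ℤ) - 2 * x₁ t + x₂ t) ^ 2 = 0 := by
      have : ∑ t, 6 * ((x₀ t : ℤ) - 2 * x₁ t + x₂ t) ^ 2 =
          ∑ t, (x₀ t : ℤ) ^ 2 - 4 * ∑ t, (x₁ t : ℤ) ^ 2 + 6 * ∑ t, (x₂ t : ℤ) ^ 2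
            - 4 * ∑ t, (x₃ t : ℤ) ^ 2 + ∑ t, (x₄ t : ℤ) ^ 2 := by
        rw [Finset.mul_sum, Finset.mul_sum, Finset.mul_sum, ← Finset.sum_sub_distrib,
          ← Finset.sum_add_distrib, ← Finset.sum_sub_distrib, ← Finset.sum_add_distrib]
        refine Finset.sum_congr rfl fun t _ => ?_
        have e3 : (x₃ t : ℤ) = x₀ t - 3 * x₁ t + 3 * x₂ t := by linarith [t₁ t]
        have e4 : (x₄ t : ℤ) = x₁ t - 3 * x₂ t + 3 * x₃ t := by linarith [t₂ t]
        rw [e4, e3]; ring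
      rw [this, hqq _ hx₀, hqq _ hx₁, hqq _ hx₂, hqq _ hx₃, hqq _ hx₄]; ring
    have hz : ∀ t, (x₀ t : ℤ) - 2 * x₁ t + x₂ t = 0 := by
      intro t
      have h := (Finset.sum_eq_zero_iff_of_nonneg (fun t _ => by positivity)).1 hsum t (mem_univ _)
      have h' : ((x₀ t : ℤ) - 2 * x₁ t + x₂ t) ^ 2 = 0 := by linarith
      exact pow_eq_zero_iff (two_ne_zero) |>.1 h'
    rw [hφc, hφc, hφc, Finset.mul_sum, ← Finset.sum_sub_distrib, ← Finset.sum_add_distrib]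
    refine Finset.sum_eq_zero fun t _ => ?_
    have : (x₀ t : ℤ) * (4 * (B : ℤ)) ^ (t : ℕ) - 2 * ((x₁ t : ℤ) * (4 * (B : ℤ)) ^ (t : ℕ))
        + (x₂ t : ℤ) * (4 * (B : ℤ)) ^ (t : ℕ)
        = ((x₀ t : ℤ) - 2 * x₁ t + x₂ t) * (4 * (B : ℤ)) ^ (t : ℕ) := by ring
    rw [this, hz t, zero_mul]

end Pool.Agent.Lib.MP_65a179_nt.Free
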