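import Pool.Agent.Lib.MP_65a179_nt.Free.Main
import Pool.Agent.Lib.MP_65a179_nt.Free.Beh5

/-!
A set without five-term geometric progressions and with almost logarithmic gaps.
-/

open MeasureTheory Set Filter
open scoped ENNReal

namespace Pool.Agent.Lib.MP_65a179_nt.Free

theorem sq2_third {a b c d : ℕ} (ha : a ≠ 0) (hb : b ≠ 0) (hc : c ≠ 0) (hd : d ≠ 0)
    (h : a * c = b * b) (h' : b * d = c * c) :
    (sq2 a : ℤ) - 3 * sq2 b + 3 * sq2 c - sq2 d = 0 := by
  have hf : ∀ {a b c : ℕ}, a ≠ 0 → b ≠ 0 → c ≠ 0 → a * c = b * b → ∀ p,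
      a.factorization p + c.factorization p = b.factorization p + b.factorization p :=
    fun {a b c} ha hb hc h p => by
      have := congrArg (fun n => n.factorization p) h
      simpa only [Nat.factorization_mul ha hc, Nat.factorization_mul hb hb, Finsupp.add_apply]
        using this
  set s := a.primeFactors ∪ b.primeFactors ∪ c.primeFactors ∪ d.primeFactors with hs
  rw [sq2_eq (n := a) (s := s) fun p hp => by simp only [hs, Finset.mem_union]; tauto,
    sq2_eq (n := b) (s := s) fun p hp => by simp only [hs, Finset.mem_union]; tauto,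
    sq2_eq (n := c) (s := s) fun p hp => by simp only [hs, Finset.mem_union]; tauto,
    sq2_eq (n := d) (s := s) fun p hp => by simp only [hs, Finset.mem_union]; tauto,
    Finset.mul_sum, Finset.mul_sum, ← Finset.sum_sub_distrib, ← Finset.sum_add_distrib,
    ← Finset.sum_sub_distrib]
  refine Finset.sum_eq_zero fun p _ => ?_
  have e : (c.factorization p : ℤ) = 2 * b.factorization p - a.factorization p := by
    have := hf ha hb hc h p
    omega
  have e' : (d.factorization p : ℤ) = 2 * c.factorization p - b.factorization p := by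
    have := hf hb hc hd h' p
    omega
  rw [e', e]
  ring

/-- integers with a prime of their own miss their target sets independently -/
theorem mu_miss_set (N : Finset ℕ) (B : ℕ → Set UnitAddCircle) (hB : ∀ n, MeasurableSet (B n))
    {δ : ℝ} (hδ0 : 0 ≤ δ) (hρ : ∀ n ∈ N, ENNReal.ofReal δ ≤ volume (B n))
    (hN : ∀ n ∈ N, ∃ p, n.factorization p ≠ 0 ∧ ∀ m ∈ N, m ≠ n → m.factorization p = 0) :
    mu {θ | ∀ n ∈ N, chi θ n ∉ B n} ≤ ENNReal.ofReal (1 - δ) ^ N.card := by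
  have hvol : ∀ {e : ℕ}, e ≠ 0 → ∀ (c : UnitAddCircle) (n : ℕ), ENNReal.ofReal δ ≤ volume (B n) →
      volume {y : UnitAddCircle | c + e • y ∉ B n} ≤ ENNReal.ofReal (1 - δ) := by
    intro e he c n hn
    have h1 : MeasurePreserving (fun y : UnitAddCircle => c + (e : ℤ) • y) volume volume :=
      (measurePreserving_add_left volume c).comp
        (Measure.measurePreserving_zsmul volume (Int.natCast_ne_zero.2 he))
    have h2 := h1.measure_preimage (s := (B n)ᶜ) (hB n).compl.nullMeasurableSet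
    simp only [natCast_zsmul] at h2
    refine (le_of_eq h2).trans ?_
    rw [measure_compl (hB n) (measure_ne_top _ _), UnitAddCircle.measure_univ,
      ENNReal.ofReal_sub _ hδ0, ENNReal.ofReal_one]
    exact tsub_le_tsub_left hn _
  have hmeas : ∀ M : Finset ℕ, MeasurableSet {θ | ∀ n ∈ M, chi θ n ∉ B n} := fun M => by
    simp only [ofPred_forall]
    exact M.measurableSet_biInter fun n _ => (chi_continuous n).measurable (hB n).compl
  induction N using Finset.induction_on with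
  | empty => simp [mu_univ]
  | insert n M hn ih =>
    obtain ⟨p, hp, hp2⟩ := hN n (Finset.mem_insert_self _ _)
    have h1 := ih (fun m hm => hρ m (Finset.mem_insert_of_mem hm)) fun m hm => by
      obtain ⟨q, hq, hq2⟩ := hN m (Finset.mem_insert_of_mem hm)
      exact ⟨q, hq, fun k hk => hq2 k (Finset.mem_insert_of_mem hk)⟩
    rw [mu_avg (hmeas _) p, Finset.card_insert_of_notMem hn, pow_succ']
    refine le_trans ?_ (mul_le_mul_right h1 _)
    rw [← lintegral_indicator_const (hmeas M)]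
    refine lintegral_mono fun θ => ?_
    by_cases hθ : θ ∈ {θ | ∀ n ∈ M, chi θ n ∉ B n}
    · rw [indicator_of_mem hθ]
      refine le_trans (measure_mono fun y hy => ?_) (hvol hp (chi θ n) n
        (hρ n (Finset.mem_insert_self _ _)))
      have := hy n (Finset.mem_insert_self _ _)
      rwa [chi_single] at this
    · refine le_trans (measure_mono (t := ∅) fun y hy => hθ fun m hm => ?_) (by simp)
      have := hy m (Finset.mem_insert_of_mem hm)
      rwa [chi_single, hp2 m (Finset.mem_insert_of_mem hm) (fun e => hn (e ▸ hm)), zero_smul,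
        add_zero] at this

/-- the Behrend set at level `j` -/
noncomputable def AA (j : ℕ) : Finset ℕ :=
  (exists_behrend5 (j + 1) (2 ^ (2 * j)) Nat.one_le_two_pow).choose

theorem AA_lt {j a : ℕ} (ha : a ∈ AA j) : (a : ℝ) ≤ (2 ^ (j + 1) ^ 2) ^ 2 := by
  have h := (exists_behrend5 (j + 1) (2 ^ (2 * j)) Nat.one_le_two_pow).choose_spec.1 a ha
  have e : (4 * 2 ^ (2 * j)) ^ (j + 1) = (2 ^ (j + 1) ^ 2) ^ 2 := by
    rw [show 4 = 2 ^ 2 by norm_num, ← pow_add, ← pow_mul, ← pow_mul]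
    congr 1
    ring
  rw [e] at h
  exact_mod_cast h.le

theorem AA_card (j : ℕ) : (2 : ℝ) ^ (2 * j * (j + 1)) ≤ (AA j).card * 2 ^ (5 * j + 1) := by
  have h : (2 ^ (2 * j)) ^ (j + 1) ≤ (AA j).card * ((j + 1) * (2 ^ (2 * j)) ^ 2 + 1) :=
    (exists_behrend5 (j + 1) (2 ^ (2 * j)) Nat.one_le_two_pow).choose_spec.2.1
  have h1 : (j + 1) * (2 ^ (2 * j)) ^ 2 + 1 ≤ 2 ^ (5 * j + 1) := by
    have h2 : j + 1 ≤ 2 ^ j := Nat.lt_two_pow_self
    have h3 : (j + 1) * (2 ^ (2 * j)) ^ 2 ≤ 2 ^ (5 * j) := by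
      calc (j + 1) * (2 ^ (2 * j)) ^ 2 ≤ 2 ^ j * (2 ^ (2 * j)) ^ 2 := Nat.mul_le_mul_right _ h2
        _ = 2 ^ (5 * j) := by
          rw [← pow_mul, ← pow_add]
          congr 1
          ring
    have h4 : 1 ≤ 2 ^ (5 * j) := Nat.one_le_two_pow
    rw [pow_succ 2 (5 * j)]
    omega
  rw [← pow_mul] at h
  exact_mod_cast h.trans (Nat.mul_le_mul_left _ h1)

/-- the centre of the arc of `n` that belongs to `a` -/
noncomputable def cen5 (n a : ℕ) : ℝ := sc (lev n) * (1 + ((a : ℝ) - sq2 n) / mm (lev n))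

/-- the radius of the arcs at level `j` -/
noncomputable def rad5 (j : ℕ) : ℝ := sc j / (16 * mm j)

/-- the target set of `n` -/
def BB (n : ℕ) : Set UnitAddCircle :=
  ⋃ a ∈ AA (lev n), Metric.closedBall ((cen5 n a : ℝ) : UnitAddCircle) (rad5 (lev n))

/-- the set -/
def S5 (θ : ℕ → UnitAddCircle) : Set ℕ := {n | 0 < n ∧ chi θ n ∈ BB n}

theorem BB_meas (n : ℕ) : MeasurableSet (BB n) :=
  Finset.measurableSet_biUnion _ fun _ _ => Metric.isClosed_closedBall.measurableSet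

theorem rad5_anti {i j : ℕ} (h : i ≤ j) : rad5 j ≤ rad5 i :=
  div_le_div₀ (sc_pos i).le (sc_anti h) (by linarith [le_mm i]) (by linarith [mm_mono h])

theorem rad5_le (j : ℕ) : 0 < rad5 j ∧ rad5 j ≤ sc j / 128 :=
  ⟨div_pos (sc_pos j) (by linarith [le_mm j]),
    div_le_div_of_nonneg_left (sc_pos j).le (by norm_num) (by linarith [le_mm j])⟩

theorem cen5_eq (n a : ℕ) :
    cen5 n a = sc (lev n) + 16 * rad5 (lev n) * ((a : ℝ) - sq2 n) := by
  have h0 : mm (lev n) ≠ 0 := by linarith [le_mm (lev n)] |> fun h : (0 : ℝ) < mm (lev n) => h.ne'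
  rw [cen5, rad5]
  field_simp

theorem cen5_bd {n a : ℕ} (hn : n ≠ 0) (ha : a ∈ AA (lev n)) :
    7 / 8 * sc (lev n) ≤ cen5 n a ∧ cen5 n a ≤ 9 / 8 * sc (lev n) := by
  have h0 : 0 < mm (lev n) := by linarith [le_mm (lev n)]
  have h1 : (sq2 n : ℝ) ≤ (2 ^ (lev n + 1) ^ 2) ^ 2 := by
    exact_mod_cast (sq2_le hn).trans (Nat.pow_le_pow_left (log_lt n).le 2)
  have h1' := AA_lt ha
  have p1 : (0 : ℝ) ≤ sq2 n := by positivity
  have p2 : (0 : ℝ) ≤ a := by positivity
  have h2 : ((a : ℝ) - sq2 n) / mm (lev n) ≤ 1 / 8 := by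
    rw [div_le_iff₀ h0, mm]
    linarith
  have h3 : -(1 / 8) ≤ ((a : ℝ) - sq2 n) / mm (lev n) := by
    rw [le_div_iff₀ h0, mm]
    linarith
  have h4 := sc_pos (lev n)
  unfold cen5
  constructor <;> nlinarith

theorem BB_vol {n : ℕ} (hn : n ≠ 0) :
    ENNReal.ofReal ((1 / 2) ^ (9 * lev n + 11)) ≤ volume (BB n) := by
  have hr := rad5_le (lev n)
  have hs := sc_le (lev n)
  have hs0 := sc_pos (lev n)
  rw [BB, measure_biUnion_finset ?_ fun _ _ => Metric.isClosed_closedBall.measurableSet]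
  · simp only [AddCircle.volume_closedBall, Finset.sum_const, nsmul_eq_mul]
    rw [min_eq_right (by linarith [hr.2]), ← ENNReal.ofReal_natCast,
      ← ENNReal.ofReal_mul (by positivity)]
    refine ENNReal.ofReal_le_ofReal ?_
    have h1 := AA_card (lev n)
    set j := lev n
    have h2 : 2 * rad5 j = (1 / 2) ^ (2 * j ^ 2 + 6 * j + 10) := by
      rw [rad5, sc, mm, show (1 / 4 : ℝ) = (1 / 2) ^ 2 by norm_num, ← pow_mul, ← pow_mul, one_div,
        inv_pow, inv_pow]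
      field_simp
      rw [show (16 : ℝ) = 2 ^ 4 by norm_num, show (8 : ℝ) = 2 ^ 3 by norm_num, ← pow_add,
        ← pow_add, ← pow_add, ← pow_succ']
      congr 1
      ring
    rw [h2, one_div, inv_pow, inv_pow, ← div_eq_mul_inv, le_div_iff₀ (by positivity),
      inv_mul_le_iff₀ (by positivity)]
    have h3 : (2 : ℝ) ^ (2 * j ^ 2 + 6 * j + 10) = 2 ^ (2 * j * (j + 1)) * 2 ^ (4 * j + 10) := by
      rw [← pow_add]
      congr 1
      ring
    have h4 : (2 : ℝ) ^ (9 * j + 11) = 2 ^ (5 * j + 1) * 2 ^ (4 * j + 10) := by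
      rw [← pow_add]
      congr 1
      ring
    rw [h3, h4]
    have h5 : (0 : ℝ) ≤ 2 ^ (4 * j + 10) := by positivity
    nlinarith [mul_le_mul_of_nonneg_right h1 h5]
  · intro a ha b hb hab
    refine Metric.closedBall_disjoint_closedBall ?_
    obtain ⟨a1, a2⟩ := cen5_bd hn ha
    obtain ⟨b1, b2⟩ := cen5_bd hn hb
    rw [dist_eq_norm, ← AddCircle.coe_sub, (AddCircle.norm_coe_eq_abs_iff (1 : ℝ) one_ne_zero).2
      (by rw [abs_one]; exact abs_le.2 ⟨by linarith, by linarith⟩), cen5_eq, cen5_eq]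
    have h1 : (1 : ℝ) ≤ |(a : ℝ) - b| := by
      have : (1 : ℤ) ≤ |(a : ℤ) - b| := Int.one_le_abs (sub_ne_zero.2 (by exact_mod_cast hab))
      exact_mod_cast this
    have h2 : sc (lev n) + 16 * rad5 (lev n) * ((a : ℝ) - sq2 n) -
        (sc (lev n) + 16 * rad5 (lev n) * ((b : ℝ) - sq2 n)) = 16 * rad5 (lev n) * (a - b) := by
      ring
    rw [h2, abs_mul, abs_of_pos (by linarith [hr.1])]
    nlinarith [hr.1]

theorem S5_mem {θ : ℕ → UnitAddCircle} {n : ℕ} (hn : n ∈ S5 θ) :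
    ∃ a ∈ AA (lev n), ‖chi θ n - ((cen5 n a : ℝ) : UnitAddCircle)‖ ≤ rad5 (lev n) := by
  obtain ⟨a, ha, h⟩ := mem_iUnion₂.1 hn.2
  exact ⟨a, ha, mem_closedBall_iff_norm.1 h⟩

/-- the second difference of the centres along three terms is small, and the levels agree -/
theorem second_small (θ : ℕ → UnitAddCircle) {a b c u v w : ℕ} (ha : a ≠ 0) (hb : b ≠ 0)
    (hc : c ≠ 0) (hu : u ∈ AA (lev a)) (hv : v ∈ AA (lev b)) (hw : w ∈ AA (lev c))
    (ea : ‖chi θ a - ((cen5 a u : ℝ) : UnitAddCircle)‖ ≤ rad5 (lev a))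
    (eb : ‖chi θ b - ((cen5 b v : ℝ) : UnitAddCircle)‖ ≤ rad5 (lev b))
    (ec : ‖chi θ c - ((cen5 c w : ℝ) : UnitAddCircle)‖ ≤ rad5 (lev c))
    (h : a * c = b * b) (hab : a < b) :
    b < c ∧ lev b = lev a ∧ lev c = lev a ∧
      |((u : ℝ) - 2 * v + w) - (sq2 a - 2 * sq2 b + sq2 c)| ≤ 1 / 4 := by
  have hbc : b < c := by
    by_contra hn
    have := Nat.mul_lt_mul_of_lt_of_le hab (not_lt.1 hn) (Nat.pos_of_ne_zero hb)
    omega
  have h1 : chi θ a + chi θ c = chi θ b + chi θ b := by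
    rw [← chi_mul θ ha hc, h, chi_mul θ hb hb]
  have h2 : ((cen5 a u + cen5 c w - 2 * cen5 b v : ℝ) : UnitAddCircle) =
      (chi θ b - cen5 b v) + (chi θ b - cen5 b v) -
        ((chi θ a - cen5 a u) + (chi θ c - cen5 c w)) := by
    rw [two_mul, AddCircle.coe_sub, AddCircle.coe_add, AddCircle.coe_add,
      sub_add_sub_comm, sub_add_sub_comm, h1]
    abel
  have h3 : ‖((cen5 a u + cen5 c w - 2 * cen5 b v : ℝ) : UnitAddCircle)‖ ≤
      rad5 (lev b) + rad5 (lev b) + (rad5 (lev a) + rad5 (lev c)) := by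
    rw [h2]
    exact (norm_sub_le _ _).trans (add_le_add ((norm_add_le _ _).trans (add_le_add eb eb))
      ((norm_add_le _ _).trans (add_le_add ea ec)))
  have l1 := lev_mono hab.le
  have l2 := lev_mono hbc.le
  obtain ⟨a1, a2⟩ := cen5_bd ha hu
  obtain ⟨b1, b2⟩ := cen5_bd hb hv
  obtain ⟨c1, c2⟩ := cen5_bd hc hw
  have pa := sc_pos (lev a)
  have pb := sc_pos (lev b)
  have pc := sc_pos (lev c)
  have qa := sc_le (lev a)
  have s1 := sc_anti l1
  have s2 := sc_anti l2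
  rw [(AddCircle.norm_coe_eq_abs_iff (1 : ℝ) one_ne_zero).2
    (by rw [abs_one]; exact abs_le.2 ⟨by linarith, by linarith⟩)] at h3
  have h4 := abs_le.1 h3
  have r1 := rad5_anti l1
  have r2 := rad5_anti l2
  have r3 := (rad5_le (lev a)).2
  rcases l1.eq_or_lt with e1 | e1
  · rcases l2.eq_or_lt with e2 | e2
    · refine ⟨hbc, e1.symm, (e1.trans e2).symm, ?_⟩
      have h7 := (rad5_le (lev a)).1
      rw [cen5_eq, cen5_eq, cen5_eq, ← e2, ← e1] at h4
      rw [abs_le]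
      constructor
      · by_contra hn
        nlinarith [h4.1]
      · by_contra hn
        nlinarith [h4.2]
    · have := sc_lt e2
      rw [← e1] at b1 this
      exfalso
      linarith [h4.1]
  · have := sc_lt e1
    exfalso
    linarith [h4.2]

theorem free5_lt (θ : ℕ → UnitAddCircle) {a b c d e : ℕ} (ha : a ∈ S5 θ) (hb : b ∈ S5 θ)
    (hc : c ∈ S5 θ) (hd : d ∈ S5 θ) (he : e ∈ S5 θ) (h1 : a * c = b * b) (h2 : b * d = c * c)
    (h3 : c * e = d * d) (hab : a < b) : False := by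
  have a0 := ha.1.ne'
  have b0 := hb.1.ne'
  have c0 := hc.1.ne'
  have d0 := hd.1.ne'
  have e0 := he.1.ne'
  obtain ⟨u₀, m₀, n₀⟩ := S5_mem ha
  obtain ⟨u₁, m₁, n₁⟩ := S5_mem hb
  obtain ⟨u₂, m₂, n₂⟩ := S5_mem hc
  obtain ⟨u₃, m₃, n₃⟩ := S5_mem hd
  obtain ⟨u₄, m₄, n₄⟩ := S5_mem he
  obtain ⟨hbc, l₁, l₂, k₁⟩ := second_small θ a0 b0 c0 m₀ m₁ m₂ n₀ n₁ n₂ h1 hab
  obtain ⟨hcd, -, l₃, k₂⟩ := second_small θ b0 c0 d0 m₁ m₂ m₃ n₁ n₂ n₃ h2 hbc
  obtain ⟨-, -, l₄, k₃⟩ := second_small θ c0 d0 e0 m₂ m₃ m₄ n₂ n₃ n₄ h3 hcd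
  rw [l₁] at m₁ l₃
  rw [l₂] at m₂ l₄
  rw [l₃] at m₃
  rw [l₄] at m₄
  have int0 : ∀ z : ℤ, |(z : ℝ)| ≤ 1 / 4 → z = 0 := fun z hz => by
    have : |z| < 1 := by exact_mod_cast (by linarith : |(z : ℝ)| < 1)
    exact Int.abs_lt_one_iff.1 this
  have z₁ := int0 (((u₀ : ℤ) - 2 * u₁ + u₂) - (sq2 a - 2 * sq2 b + sq2 c)) (by push_cast; exact k₁)
  have z₂ := int0 (((u₁ : ℤ) - 2 * u₂ + u₃) - (sq2 b - 2 * sq2 c + sq2 d)) (by push_cast; exact k₂)
  have z₃ := int0 (((u₂ : ℤ) - 2 * u₃ + u₄) - (sq2 c - 2 * sq2 d + sq2 e)) (by push_cast; exact k₃)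
  have t₁ := sq2_third a0 b0 c0 d0 h1 h2
  have t₂ := sq2_third b0 c0 d0 e0 h2 h3
  have hB := (exists_behrend5 (lev a + 1) (2 ^ (2 * lev a)) Nat.one_le_two_pow).choose_spec.2.2
    u₀ m₀ u₁ m₁ u₂ m₂ u₃ m₃ u₄ m₄ (by linarith) (by linarith)
  have hcv := sq2_convex a0 b0 c0 h1 hab.ne
  omega

/-- a quarter of the length of the window -/
def h5 (j : ℕ) : ℕ := 2 ^ (j ^ 2 + 11 * j + 22)

theorem h5_le {x : ℕ} (hx : 2 ≤ x) (hj : 3 ≤ lev x) : (8 * h5 (lev x)) ^ 4 ≤ x := by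
  refine le_trans (Nat.pow_le_pow_left (Nat.mul_le_mul_left _ ?_) _) (hh_le hx hj)
  exact Nat.pow_le_pow_right two_pos (by nlinarith)

theorem mu_bad5 {x : ℕ} (hx : 2 ≤ x) (hj : 3 ≤ lev x) :
    mu {θ | ¬∃ t ∈ S5 θ, x < t ∧ t ≤ x + 4 * h5 (lev x)} ≤ ENNReal.ofReal (1 / (x : ℝ) ^ 2) := by
  classical
  have h0 : 0 < h5 (lev x) := pow_pos two_pos _
  have h1 := h5_le hx hj
  have h2 := card_rough h0 h1
  have h3 : 8 * h5 (lev x) ≤ x := (Nat.le_self_pow (by norm_num) _).trans h1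
  set R := (Finset.range (4 * h5 (lev x))).filter
    fun i => ∃ p : ℕ, p.Prime ∧ 4 * h5 (lev x) < p ∧ p ∣ x + 1 + i with hR
  set δ : ℝ := (1 / 2) ^ (9 * lev x + 20) with hδ
  have hδ0 : 0 ≤ δ := by positivity
  have hδ1 : δ ≤ 1 := pow_le_one₀ (by norm_num) (by norm_num)
  have h4 := mu_miss_set (R.image fun i => x + 1 + i) BB BB_meas (δ := δ) hδ0
    (fun n hn => by
      obtain ⟨i, hi, rfl⟩ := Finset.mem_image.1 hn
      have := Finset.mem_range.1 (Finset.mem_filter.1 hi).1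
      have hl := lev_two_mul (x := x) (n := x + 1 + i) (by omega) (by omega)
      exact (ENNReal.ofReal_le_ofReal (pow_le_pow_of_le_one (by norm_num) (by norm_num)
        (by omega))).trans (BB_vol (by omega)))
    (fun n hn => by
      obtain ⟨i, hi, rfl⟩ := Finset.mem_image.1 hn
      obtain ⟨hi1, p, hp, hp1, hp2⟩ := Finset.mem_filter.1 hi
      refine ⟨p, (hp.factorization_pos_of_dvd (by omega) hp2).ne', fun m hm hne => ?_⟩
      obtain ⟨k, hk, rfl⟩ := Finset.mem_image.1 hm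
      refine Nat.factorization_eq_zero_of_not_dvd fun hd => ?_
      have hi2 := Finset.mem_range.1 hi1
      have hk2 := Finset.mem_range.1 (Finset.mem_filter.1 hk).1
      rcases lt_or_gt_of_ne hne with h5 | h5
      · have := Nat.le_of_dvd (by omega) (Nat.dvd_sub hp2 hd)
        omega
      · have := Nat.le_of_dvd (by omega) (Nat.dvd_sub hd hp2)
        omega)
  rw [Finset.card_image_of_injective _ (add_right_injective _)] at h4
  refine le_trans (measure_mono ?_) (h4.trans ?_)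
  · refine fun θ hθ n hn hm => hθ ?_
    obtain ⟨i, hi, rfl⟩ := Finset.mem_image.1 hn
    have := Finset.mem_range.1 (Finset.mem_filter.1 hi).1
    exact ⟨x + 1 + i, ⟨by omega, hm⟩, by omega, by omega⟩
  · rw [← ENNReal.ofReal_pow (by linarith)]
    refine ENNReal.ofReal_le_ofReal ((pow_le_pow_of_le_one (by linarith) (by linarith) h2).trans
      ((pow_le_pow_left₀ (by linarith) (Real.one_sub_le_exp_neg _) _).trans ?_))
    have hx0 : (0 : ℝ) < x := by exact_mod_cast (by omega : 0 < x)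
    have h6 : Real.log x ≤ 2 ^ (lev x + 1) ^ 2 := by
      have h6 : (x : ℝ) ≤ 2 ^ (2 ^ (lev x + 1) ^ 2 : ℕ) := by
        exact_mod_cast (Nat.lt_pow_succ_log_self one_lt_two x).le.trans
          (Nat.pow_le_pow_right two_pos (log_lt x))
      refine (Real.log_le_log hx0 h6).trans ?_
      rw [Real.log_pow]
      push_cast
      exact mul_le_of_le_one_right (by positivity) (by linarith [Real.log_two_lt_d9])
    have h7 : (h5 (lev x) : ℝ) * δ = 2 * 2 ^ (lev x + 1) ^ 2 := by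
      rw [h5, hδ, one_div, inv_pow, ← div_eq_mul_inv, div_eq_iff (by positivity), ← pow_succ',
        ← pow_add]
      push_cast
      congr 1
      ring
    rw [← Real.exp_nat_mul, one_div, ← Real.exp_log (pow_pos hx0 2), ← Real.exp_neg,
      Real.exp_le_exp, Real.log_pow]
    push_cast
    linarith

theorem exists_good5 : ∃ θ x0, ∀ x, x0 ≤ x → ∃ t ∈ S5 θ, x < t ∧ t ≤ x + 4 * h5 (lev x) := by
  have h1 : ∑' x : ℕ, mu {θ | 2 ≤ x ∧ 3 ≤ lev x ∧
      ¬∃ t ∈ S5 θ, x < t ∧ t ≤ x + 4 * h5 (lev x)} ≠ ∞ := by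
    refine ne_top_of_le_ne_top (Real.summable_one_div_nat_pow.2 one_lt_two).tsum_ofReal_ne_top
      (ENNReal.tsum_le_tsum fun x => ?_)
    by_cases h : 2 ≤ x ∧ 3 ≤ lev x
    · exact (measure_mono fun θ hθ => hθ.2.2).trans (mu_bad5 h.1 h.2)
    · exact (measure_mono (t := ∅) fun θ hθ => h ⟨hθ.1, hθ.2.1⟩).trans (by simp)
  have h2 : mu ≠ 0 := fun e => by simpa [e] using mu_univ
  have := ae_neBot.2 h2
  obtain ⟨θ, hθ⟩ := (ae_eventually_notMem h1).exists
  obtain ⟨x1, hx1⟩ := eventually_atTop.1 hθ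
  obtain ⟨x2, hx2⟩ : ∃ x2, 3 ≤ lev x2 := ⟨2 ^ 2 ^ 3 ^ 2, by
    rw [lev, Nat.log_pow one_lt_two, Nat.log_pow one_lt_two, Nat.sqrt_eq']⟩
  refine ⟨θ, x1 + x2 + 2, fun x hx => ?_⟩
  by_contra hn
  exact hx1 x (by omega) ⟨by omega, hx2.trans (lev_mono (by omega)), hn⟩

theorem h5_log {x : ℕ} (hx : 3 ≤ x) :
    (4 * h5 (lev x) : ℝ) ≤ 2 ^ 36 * Real.log x * Real.exp (16 * √(Real.log (Real.log x))) := by
  have hx0 : (0 : ℝ) < x := by exact_mod_cast (by omega : 0 < x)
  have hl1 : 1 ≤ Real.log x := by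
    rw [Real.le_log_iff_exp_le hx0]
    exact Real.exp_one_lt_three.le.trans (by exact_mod_cast hx)
  have hll : 0 ≤ Real.log (Real.log x) := Real.log_nonneg hl1
  have l2 := Real.log_two_gt_d9
  have l2' := Real.log_two_lt_d9
  have h1 : (2 : ℝ) ^ lev x ^ 2 ≤ 2 * Real.log x := by
    have h2 : (2 : ℝ) ^ (2 ^ lev x ^ 2 : ℕ) ≤ x := by
      exact_mod_cast (Nat.pow_le_pow_right two_pos (le_log (by omega))).trans
        (Nat.pow_log_le_self 2 (by omega))
    have h3 := Real.log_le_log (by positivity) h2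
    rw [Real.log_pow] at h3
    push_cast at h3
    have h4 : (0 : ℝ) ≤ 2 ^ lev x ^ 2 := by positivity
    nlinarith
  have h2 : (lev x : ℝ) ^ 2 * Real.log 2 ≤ Real.log 2 + Real.log (Real.log x) := by
    have h3 := Real.log_le_log (by positivity) h1
    rw [Real.log_pow, Real.log_mul two_ne_zero (by linarith)] at h3
    push_cast at h3
    exact h3
  set s := √(Real.log (Real.log x)) with hs
  have hs0 : 0 ≤ s := Real.sqrt_nonneg _
  have hs2 : s ^ 2 = Real.log (Real.log x) := Real.sq_sqrt hll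
  have h3 : (lev x : ℝ) ≤ 1 + 2 * s := by
    refine (pow_le_pow_iff_left₀ (by positivity) (by positivity) two_ne_zero).1 ?_
    have : (lev x : ℝ) ^ 2 * Real.log 2 ≤ (1 + 2 * s) ^ 2 * Real.log 2 := by nlinarith
    exact le_of_mul_le_mul_right this (by linarith)
  have h4 : (2 : ℝ) ^ (11 * lev x) ≤ 2 ^ 11 * Real.exp (16 * s) := by
    have e : ∀ k : ℕ, (2 : ℝ) ^ k = Real.exp (k * Real.log 2) := fun k => by
      rw [Real.exp_nat_mul, Real.exp_log two_pos]
    rw [e, e, ← Real.exp_add, Real.exp_le_exp]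
    push_cast
    nlinarith
  have h6 : (4 * h5 (lev x) : ℝ) = 2 ^ 24 * 2 ^ lev x ^ 2 * 2 ^ (11 * lev x) := by
    rw [h5]
    push_cast
    ring
  rw [h6]
  calc (2 : ℝ) ^ 24 * 2 ^ lev x ^ 2 * 2 ^ (11 * lev x)
      ≤ 2 ^ 24 * (2 * Real.log x) * (2 ^ 11 * Real.exp (16 * s)) := by gcongr
    _ = 2 ^ 36 * Real.log x * Real.exp (16 * s) := by ring

theorem main5 : ∃ S : Set ℕ, (∀ n ∈ S, 0 < n) ∧
    (∀ a ∈ S, ∀ b ∈ S, ∀ c ∈ S, ∀ d ∈ S, ∀ e ∈ S, ∀ r : ℚ, (b : ℚ) = r * a → (c : ℚ) = r * b →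
      (d : ℚ) = r * c → (e : ℚ) = r * d → r = 1) ∧
    ∃ A : ℝ, ∀ x : ℕ, 3 ≤ x → ∃ t ∈ S, x < t ∧
      (t : ℝ) - x ≤ A * Real.log x * Real.exp (16 * √(Real.log (Real.log x))) := by
  obtain ⟨θ, x0, h⟩ := exists_good5
  refine ⟨S5 θ, fun n hn => hn.1, fun a ha b hb c hc d hd e he r h1 h2 h3 h4 => ?_, ?_⟩
  · have key : ∀ {a b c : ℕ}, (b : ℚ) = r * a → (c : ℚ) = r * b → a * c = b * b :=
      fun {a b c} h1 h2 => by
        have h3 : (a : ℚ) * c = b * b := by
          rw [h2]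
          linear_combination (-b : ℚ) * h1
        exact_mod_cast h3
    have k1 := key h1 h2
    have k2 := key h2 h3
    have k3 := key h3 h4
    have a0 : (0 : ℚ) < a := by exact_mod_cast ha.1
    have d0 : (0 : ℚ) < d := by exact_mod_cast hd.1
    rcases lt_trichotomy r 1 with hr | hr | hr
    · refine (free5_lt θ he hd hc hb ha (by rw [mul_comm, k3]) (by rw [mul_comm, k2])
        (by rw [mul_comm, k1]) ?_).elim
      have : (e : ℚ) < d := by rw [h4]; nlinarith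
      exact_mod_cast this
    · exact hr
    · refine (free5_lt θ ha hb hc hd he k1 k2 k3 ?_).elim
      have : (a : ℚ) < b := by rw [h1]; nlinarith
      exact_mod_cast this
  · obtain ⟨t0, ht0, ht1, -⟩ := h x0 le_rfl
    refine ⟨2 ^ 36 + t0, fun x hx => ?_⟩
    have hl1 : 1 ≤ Real.log x := by
      rw [Real.le_log_iff_exp_le (by positivity)]
      exact Real.exp_one_lt_three.le.trans (by exact_mod_cast hx)
    have h1 : 1 ≤ Real.log x * Real.exp (16 * √(Real.log (Real.log x))) :=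
      one_le_mul_of_one_le_of_one_le hl1 (Real.one_le_exp (by positivity))
    have h3 : (t0 : ℝ) ≤ t0 * (Real.log x * Real.exp (16 * √(Real.log (Real.log x)))) :=
      le_mul_of_one_le_right (by positivity) h1
    have h4 : (0 : ℝ) ≤ x := by positivity
    have h5 : (0 : ℝ) ≤ t0 := by positivity
    have h8 := h5_log hx
    rw [mul_assoc] at h8
    rw [mul_assoc, add_mul]
    rcases le_total x0 x with h6 | h6
    · obtain ⟨t, ht, ht2, ht3⟩ := h x h6
      have h7 : (t : ℝ) ≤ x + 4 * Free.h5 (lev x) := by exact_mod_cast ht3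
      exact ⟨t, ht, ht2, by linarith⟩
    · exact ⟨t0, ht0, by omega, by linarith⟩

end Pool.Agent.Lib.MP_65a179_nt.Free
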