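import Pool.Agent.Lib.MP_65a179_nt.Free.Prob

/-!
A set without three-term geometric progressions and with polylogarithmic gaps.
-/

open MeasureTheory Set Filter
open scoped ENNReal

namespace Pool.Agent.Lib.MP_65a179_nt.Free

/-- the level of an integer -/
def lev (n : ℕ) : ℕ := Nat.sqrt (Nat.log 2 (Nat.log 2 n))

/-- the scale at level `j` -/
noncomputable def sc (j : ℕ) : ℝ := (1 / 4) ^ (j + 1)

/-- the number of arcs at level `j` -/
noncomputable def mm (j : ℕ) : ℝ := 8 * (2 ^ (j + 1) ^ 2) ^ 2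

/-- the centre of the arc of `n` -/
noncomputable def cen (n : ℕ) : ℝ := sc (lev n) * (1 - sq2 n / mm (lev n))

/-- the radius of the arcs at level `j` -/
noncomputable def rad (j : ℕ) : ℝ := sc j / (4 * mm j)

/-- the set -/
def SS (θ : ℕ → UnitAddCircle) : Set ℕ :=
  {n | 0 < n ∧ chi θ n ∈ Metric.closedBall ((cen n : ℝ) : UnitAddCircle) (rad (lev n))}

theorem lev_mono {a b : ℕ} (h : a ≤ b) : lev a ≤ lev b :=
  Nat.sqrt_le_sqrt (Nat.log_mono_right (Nat.log_mono_right h))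

theorem log_lt (n : ℕ) : Nat.log 2 n < 2 ^ (lev n + 1) ^ 2 :=
  (Nat.lt_pow_succ_log_self one_lt_two _).trans_le
    (Nat.pow_le_pow_right two_pos (Nat.lt_succ_sqrt' _))

theorem le_log {n : ℕ} (hn : 2 ≤ n) : 2 ^ lev n ^ 2 ≤ Nat.log 2 n :=
  (Nat.pow_le_pow_right two_pos (Nat.sqrt_le' _)).trans
    (Nat.pow_log_le_self 2 (Nat.log_pos one_lt_two hn).ne')

theorem lev_two_mul {x n : ℕ} (hx : x ≠ 0) (h : n ≤ x * 2) : lev n ≤ lev x + 1 := by
  have h1 : Nat.log 2 n ≤ Nat.log 2 x + 1 :=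
    (Nat.log_mono_right h).trans (Nat.log_mul_base one_lt_two hx).le
  have h2 := log_lt x
  have h3 : Nat.log 2 (Nat.log 2 n) ≤ (lev x + 1) ^ 2 :=
    (Nat.log_mono_right (h1.trans h2)).trans (Nat.log_pow one_lt_two _).le
  exact (Nat.sqrt_le_sqrt h3).trans (Nat.sqrt_eq' _).le

theorem sc_pos (j : ℕ) : 0 < sc j := by
  unfold sc
  positivity

theorem sc_le (j : ℕ) : sc j ≤ 1 / 4 := by
  rw [sc, pow_succ]
  exact mul_le_of_le_one_left (by norm_num) (pow_le_one₀ (by norm_num) (by norm_num))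

theorem sc_anti {i j : ℕ} (h : i ≤ j) : sc j ≤ sc i :=
  pow_le_pow_of_le_one (by norm_num) (by norm_num) (by omega)

theorem sc_lt {i j : ℕ} (h : i < j) : 4 * sc j ≤ sc i := by
  have := sc_anti (show i + 1 ≤ j from h)
  rw [sc.eq_1 (i + 1), pow_succ, ← sc] at this
  linarith

theorem le_mm (j : ℕ) : 8 ≤ mm j :=
  le_mul_of_one_le_right (by norm_num) (one_le_pow₀ (one_le_pow₀ one_le_two))

theorem mm_mono {i j : ℕ} (h : i ≤ j) : mm i ≤ mm j := by
  unfold mm
  gcongr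
  exact one_le_two

theorem rad_anti {i j : ℕ} (h : i ≤ j) : rad j ≤ rad i :=
  div_le_div₀ (sc_pos i).le (sc_anti h) (by linarith [le_mm i]) (by linarith [mm_mono h])

theorem rad_le (j : ℕ) : 0 < rad j ∧ rad j ≤ sc j / 32 :=
  ⟨div_pos (sc_pos j) (by linarith [le_mm j]),
    div_le_div_of_nonneg_left (sc_pos j).le (by norm_num) (by linarith [le_mm j])⟩

theorem cen_bd {n : ℕ} (hn : n ≠ 0) : 7 / 8 * sc (lev n) ≤ cen n ∧ cen n ≤ sc (lev n) := by
  have h0 : 0 < mm (lev n) := by linarith [le_mm (lev n)]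
  have h1 : (sq2 n : ℝ) ≤ (2 ^ (lev n + 1) ^ 2) ^ 2 := by
    exact_mod_cast (sq2_le hn).trans (Nat.pow_le_pow_left (log_lt n).le 2)
  have h2 : (sq2 n : ℝ) / mm (lev n) ≤ 1 / 8 := by
    rw [div_le_iff₀ h0, mm]
    linarith
  have h3 : 0 ≤ (sq2 n : ℝ) / mm (lev n) := by positivity
  have h4 := sc_pos (lev n)
  unfold cen
  constructor <;> nlinarith

theorem free_lt (θ : ℕ → UnitAddCircle) {a b c : ℕ} (ha : a ∈ SS θ) (hb : b ∈ SS θ)
    (hc : c ∈ SS θ) (h : a * c = b * b) (hab : a < b) : False := by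
  have ha0 := ha.1.ne'
  have hb0 := hb.1.ne'
  have hc0 := hc.1.ne'
  have hbc : b < c := by
    by_contra hn
    have := Nat.mul_lt_mul_of_lt_of_le hab (not_lt.1 hn) hb.1
    omega
  have h1 : chi θ a + chi θ c = chi θ b + chi θ b := by
    rw [← chi_mul θ ha0 hc0, h, chi_mul θ hb0 hb0]
  have h2 : ((cen a + cen c - 2 * cen b : ℝ) : UnitAddCircle) =
      (chi θ b - cen b) + (chi θ b - cen b) - ((chi θ a - cen a) + (chi θ c - cen c)) := by
    rw [two_mul, AddCircle.coe_sub, AddCircle.coe_add, AddCircle.coe_add,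
      sub_add_sub_comm, sub_add_sub_comm, h1]
    abel
  have h3 : ‖((cen a + cen c - 2 * cen b : ℝ) : UnitAddCircle)‖ ≤
      rad (lev b) + rad (lev b) + (rad (lev a) + rad (lev c)) := by
    rw [h2]
    have ea := mem_closedBall_iff_norm.1 ha.2
    have eb := mem_closedBall_iff_norm.1 hb.2
    have ec := mem_closedBall_iff_norm.1 hc.2
    exact (norm_sub_le _ _).trans (add_le_add ((norm_add_le _ _).trans (add_le_add eb eb))
      ((norm_add_le _ _).trans (add_le_add ea ec)))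
  have l1 := lev_mono hab.le
  have l2 := lev_mono hbc.le
  obtain ⟨a1, a2⟩ := cen_bd ha0
  obtain ⟨b1, b2⟩ := cen_bd hb0
  obtain ⟨c1, c2⟩ := cen_bd hc0
  have pa := sc_pos (lev a)
  have pb := sc_pos (lev b)
  have pc := sc_pos (lev c)
  have qa := sc_le (lev a)
  have qb := sc_le (lev b)
  have qc := sc_le (lev c)
  rw [(AddCircle.norm_coe_eq_abs_iff (1 : ℝ) one_ne_zero).2
    (by rw [abs_one]; exact abs_le.2 ⟨by linarith, by linarith⟩)] at h3
  have h4 := abs_le.1 h3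
  have r1 := rad_anti l1
  have r2 := rad_anti l2
  have r3 := (rad_le (lev a)).2
  rcases l1.eq_or_lt with e1 | e1
  · rcases l2.eq_or_lt with e2 | e2
    · have h5 : (2 * sq2 b + 2 : ℝ) ≤ sq2 a + sq2 c := by
        exact_mod_cast sq2_convex ha0 hb0 hc0 h hab.ne
      have h0 : 0 < mm (lev a) := by linarith [le_mm (lev a)]
      have h6 : cen a + cen c - 2 * cen b =
          -(4 * rad (lev a) * (sq2 a + sq2 c - 2 * sq2 b)) := by
        rw [cen, cen, cen, ← e2, ← e1, rad]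
        field_simp
        ring
      have h7 := (rad_le (lev a)).1
      nlinarith [h4.1]
    · have := sc_lt e2
      rw [← e1] at b1 this
      linarith [h4.1]
  · have := sc_lt e1
    linarith [h4.2]

theorem free (θ : ℕ → UnitAddCircle) {a b c : ℕ} (ha : a ∈ SS θ) (hb : b ∈ SS θ)
    (hc : c ∈ SS θ) (h : a * c = b * b) : a = b := by
  rcases lt_trichotomy a b with h1 | h1 | h1
  · exact (free_lt θ ha hb hc h h1).elim
  · exact h1
  · refine (free_lt θ hc hb ha (by rw [mul_comm, h]) ?_).elim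
    by_contra hn
    have := Nat.mul_lt_mul_of_lt_of_le h1 (not_lt.1 hn) hc.1
    omega

/-- a quarter of the length of the window -/
def hh (j : ℕ) : ℕ := 2 ^ (3 * j ^ 2 + 12 * j + 18)

theorem hh_le {x : ℕ} (hx : 2 ≤ x) (hj : 3 ≤ lev x) : (8 * hh (lev x)) ^ 4 ≤ x := by
  have h1 : ∀ m, 9 ≤ m → 38 * m ≤ 2 ^ m := fun m hm => by
    induction m, hm using Nat.le_induction with
    | base => norm_num
    | succ m hm ih => rw [pow_succ]; omega
  have h2 := h1 (lev x ^ 2) (by nlinarith)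
  have h3 := le_log hx
  rw [hh, show 8 = 2 ^ 3 by norm_num, ← pow_add, ← pow_mul]
  exact (Nat.pow_le_pow_right two_pos (by nlinarith)).trans (Nat.pow_log_le_self 2 (by omega))

theorem rad_hh (j : ℕ) : 2 * rad (j + 1) * hh j = 2 * 2 ^ (j + 1) ^ 2 := by
  have h1 : (hh j : ℝ) = 4 ^ (j + 1 + 1) * (2 ^ (j + 1 + 1) ^ 2) ^ 2 * 32 * 2 ^ (j + 1) ^ 2 := by
    rw [hh, show (4 : ℝ) = 2 ^ 2 by norm_num, show (32 : ℝ) = 2 ^ 5 by norm_num, ← pow_mul,
      ← pow_mul, ← pow_add, ← pow_add, ← pow_add]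
    push_cast
    congr 1
    ring
  rw [h1, rad, sc, mm, one_div, inv_pow]
  field_simp
  norm_num

theorem mu_bad {x : ℕ} (hx : 2 ≤ x) (hj : 3 ≤ lev x) :
    mu {θ | ¬∃ t ∈ SS θ, x < t ∧ t ≤ x + 4 * hh (lev x)} ≤ ENNReal.ofReal (1 / (x : ℝ) ^ 2) := by
  classical
  have h0 : 0 < hh (lev x) := pow_pos two_pos _
  have h1 := hh_le hx hj
  have h2 := card_rough h0 h1
  have h3 : 8 * hh (lev x) ≤ x := (Nat.le_self_pow (by norm_num) _).trans h1
  set R := (Finset.range (4 * hh (lev x))).filter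
    fun i => ∃ p : ℕ, p.Prime ∧ 4 * hh (lev x) < p ∧ p ∣ x + 1 + i with hR
  have hδ0 := (rad_le (lev x + 1)).1
  have hδ1 : 2 * rad (lev x + 1) ≤ 1 := by
    linarith [(rad_le (lev x + 1)).2, sc_le (lev x + 1)]
  have h4 := mu_miss (R.image fun i => x + 1 + i) (fun n => ((cen n : ℝ) : UnitAddCircle))
    (fun n => rad (lev n)) (δ := 2 * rad (lev x + 1)) (by linarith) hδ1
    (fun n hn => by
      obtain ⟨i, hi, rfl⟩ := Finset.mem_image.1 hn
      have := Finset.mem_range.1 (Finset.mem_filter.1 hi).1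
      linarith [rad_anti (lev_two_mul (x := x) (n := x + 1 + i) (by omega) (by omega))])
    (fun n hn => by
      obtain ⟨i, hi, rfl⟩ := Finset.mem_image.1 hn
      obtain ⟨hi1, p, hp, hp1, hp2⟩ := Finset.mem_filter.1 hi
      refine ⟨p, (hp.factorization_pos_of_dvd (by omega) hp2).ne', fun m hm hne => ?_⟩
      obtain ⟨k, hk, rfl⟩ := Finset.mem_image.1 hm
      refine Nat.factorization_eq_zero_of_not_dvd fun hd => ?_
      have hi2 := Finset.mem_range.1 hi1
      have hk2 := Finset.mem_range.1 (Finset.mem_filter.1 hk).1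
      rcases lt_or_gt_of_ne hne with h5 | h5
      · have := Nat.le_of_dvd (by omega) (Nat.dvd_sub hp2 hd)
        omega
      · have := Nat.le_of_dvd (by omega) (Nat.dvd_sub hd hp2)
        omega)
  rw [Finset.card_image_of_injective _ (add_right_injective _)] at h4
  refine le_trans (measure_mono ?_) (h4.trans ?_)
  · refine fun θ hθ n hn hm => hθ ?_
    obtain ⟨i, hi, rfl⟩ := Finset.mem_image.1 hn
    have := Finset.mem_range.1 (Finset.mem_filter.1 hi).1
    exact ⟨x + 1 + i, ⟨by omega, hm⟩, by omega, by omega⟩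
  · rw [← ENNReal.ofReal_pow (by linarith)]
    refine ENNReal.ofReal_le_ofReal ((pow_le_pow_of_le_one (by linarith) (by linarith) h2).trans
      ((pow_le_pow_left₀ (by linarith) (Real.one_sub_le_exp_neg _) _).trans ?_))
    have hx0 : (0 : ℝ) < x := by exact_mod_cast (by omega : 0 < x)
    have h5 : Real.log x ≤ 2 ^ (lev x + 1) ^ 2 := by
      have h6 : (x : ℝ) ≤ 2 ^ (2 ^ (lev x + 1) ^ 2 : ℕ) := by
        exact_mod_cast (Nat.lt_pow_succ_log_self one_lt_two x).le.trans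
          (Nat.pow_le_pow_right two_pos (log_lt x))
      refine (Real.log_le_log hx0 h6).trans ?_
      rw [Real.log_pow]
      push_cast
      exact mul_le_of_le_one_right (by positivity) (by linarith [Real.log_two_lt_d9])
    rw [← Real.exp_nat_mul, one_div, ← Real.exp_log (pow_pos hx0 2), ← Real.exp_neg,
      Real.exp_le_exp, Real.log_pow]
    push_cast
    linarith [rad_hh (lev x)]

theorem exists_good : ∃ θ x0, ∀ x, x0 ≤ x → ∃ t ∈ SS θ, x < t ∧ t ≤ x + 4 * hh (lev x) := by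
  have h1 : ∑' x : ℕ, mu {θ | 2 ≤ x ∧ 3 ≤ lev x ∧
      ¬∃ t ∈ SS θ, x < t ∧ t ≤ x + 4 * hh (lev x)} ≠ ∞ := by
    refine ne_top_of_le_ne_top (Real.summable_one_div_nat_pow.2 one_lt_two).tsum_ofReal_ne_top
      (ENNReal.tsum_le_tsum fun x => ?_)
    by_cases h : 2 ≤ x ∧ 3 ≤ lev x
    · exact (measure_mono fun θ hθ => hθ.2.2).trans (mu_bad h.1 h.2)
    · exact (measure_mono (t := ∅) fun θ hθ => h ⟨hθ.1, hθ.2.1⟩).trans (by simp)
  have h2 : mu ≠ 0 := fun e => by simpa [e] using mu_univ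
  have := ae_neBot.2 h2
  obtain ⟨θ, hθ⟩ := (ae_eventually_notMem h1).exists
  obtain ⟨x1, hx1⟩ := eventually_atTop.1 hθ
  obtain ⟨x2, hx2⟩ : ∃ x2, 3 ≤ lev x2 := ⟨2 ^ 2 ^ 3 ^ 2, by
    rw [lev, Nat.log_pow one_lt_two, Nat.log_pow one_lt_two, Nat.sqrt_eq']⟩
  refine ⟨θ, x1 + x2 + 2, fun x hx => ?_⟩
  by_contra hn
  exact hx1 x (by omega) ⟨by omega, hx2.trans (lev_mono (by omega)), hn⟩

theorem hh_log {ε : ℝ} (hε : 0 < ε) {x : ℕ} (hx : 2 ≤ x) :
    (4 * hh (lev x) : ℝ) ≤ 2 ^ (36 / ε + 23 + ε) * Real.log x ^ (3 + ε) := by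
  have h1 : (2 : ℝ) ^ ((lev x : ℝ) ^ 2 - 1) ≤ Real.log x := by
    have h2 : (2 : ℝ) ^ (2 ^ lev x ^ 2 : ℕ) ≤ x := by
      exact_mod_cast (Nat.pow_le_pow_right two_pos (le_log hx)).trans
        (Nat.pow_log_le_self 2 (by omega))
    refine le_trans ?_ (Real.log_le_log (by positivity) h2)
    rw [Real.log_pow, Real.rpow_sub two_pos, Real.rpow_one, ← Nat.cast_pow, Real.rpow_natCast,
      div_eq_mul_inv]
    push_cast
    exact mul_le_mul_of_nonneg_left (by linarith [Real.log_two_gt_d9]) (by positivity)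
  refine le_trans ?_ (mul_le_mul_of_nonneg_left
    (Real.rpow_le_rpow (by positivity) h1 (by positivity)) (by positivity))
  have h2 : (4 * hh (lev x) : ℝ) = 2 ^ ((3 * lev x ^ 2 + 12 * lev x + 20 : ℕ) : ℝ) := by
    rw [Real.rpow_natCast, hh]
    push_cast
    ring
  rw [h2, ← Real.rpow_mul zero_le_two, ← Real.rpow_add two_pos]
  refine Real.rpow_le_rpow_of_exponent_le one_le_two ?_
  push_cast
  have h3 : 12 * (lev x : ℝ) ≤ 36 / ε + ε * (lev x : ℝ) ^ 2 := by
    rw [div_add' _ _ _ hε.ne', le_div_iff₀ hε]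
    nlinarith [sq_nonneg (ε * lev x - 6)]
  linarith

theorem main : ∃ S : Set ℕ, (∀ n ∈ S, 0 < n) ∧
    (∀ a ∈ S, ∀ b ∈ S, ∀ c ∈ S, ∀ r : ℚ, (b : ℚ) = r * a → (c : ℚ) = r * b → r = 1) ∧
    ∀ ε : ℝ, 0 < ε → ∃ A : ℝ, ∀ x : ℕ, 3 ≤ x →
      ∃ t ∈ S, x < t ∧ (t : ℝ) - x ≤ A * Real.log x ^ (3 + ε) := by
  obtain ⟨θ, x0, h⟩ := exists_good
  refine ⟨SS θ, fun n hn => hn.1, fun a ha b hb c hc r h1 h2 => ?_, fun ε hε => ?_⟩
  · have h3 : (a : ℚ) * c = b * b := by
      rw [h2]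
      linear_combination (-b : ℚ) * h1
    have h4 := free θ ha hb hc (by exact_mod_cast h3)
    have h5 : (a : ℚ) ≠ 0 := by exact_mod_cast ha.1.ne'
    rw [← h4] at h1
    exact mul_right_cancel₀ h5 (by rw [← h1, one_mul])
  · obtain ⟨t0, ht0, ht1, -⟩ := h x0 le_rfl
    refine ⟨2 ^ (36 / ε + 23 + ε) + t0, fun x hx => ?_⟩
    have h1 : 1 ≤ Real.log x ^ (3 + ε) := by
      refine Real.one_le_rpow ?_ (by positivity)
      rw [Real.le_log_iff_exp_le (by positivity)]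
      exact Real.exp_one_lt_three.le.trans (by exact_mod_cast hx)
    have h2 : (0 : ℝ) ≤ 2 ^ (36 / ε + 23 + ε) * Real.log x ^ (3 + ε) := by positivity
    have h3 : (t0 : ℝ) ≤ t0 * Real.log x ^ (3 + ε) := le_mul_of_one_le_right (by positivity) h1
    have h4 : (0 : ℝ) ≤ x := by positivity
    have h5 : (0 : ℝ) ≤ t0 := by positivity
    rw [add_mul]
    rcases le_total x0 x with h6 | h6
    · obtain ⟨t, ht, ht2, ht3⟩ := h x h6
      have h7 : (t : ℝ) ≤ x + 4 * hh (lev x) := by exact_mod_cast ht3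
      exact ⟨t, ht, ht2, by linarith [hh_log hε (show 2 ≤ x by omega)]⟩
    · exact ⟨t0, ht0, by omega, by linarith⟩

end Pool.Agent.Lib.MP_65a179_nt.Free
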