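import Pool.Agent.Lib.MP_65a179_nt.Free.Arith

/-!
Random completely additive functions with values in the circle.
-/

open MeasureTheory Set
open scoped ENNReal

namespace Pool.Agent.Lib.MP_65a179_nt.Free

/-- the completely additive function with the value `θ p` at the prime `p` -/
noncomputable def chi (θ : ℕ → UnitAddCircle) (n : ℕ) : UnitAddCircle :=
  n.factorization.sum fun p e => e • θ p

theorem chi_mul (θ : ℕ → UnitAddCircle) {a b : ℕ} (ha : a ≠ 0) (hb : b ≠ 0) :
    chi θ (a * b) = chi θ a + chi θ b := by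
  rw [chi, Nat.factorization_mul ha hb]
  exact Finsupp.sum_add_index' (fun p => zero_smul _ _) fun p e e' => add_smul _ _ _

theorem chi_continuous (n : ℕ) : Continuous fun θ => chi θ n := by
  unfold chi Finsupp.sum
  fun_prop

theorem chi_single (θ : ℕ → UnitAddCircle) (n p : ℕ) (y : UnitAddCircle) :
    chi (θ + Pi.single p y) n = chi θ n + n.factorization p • y := by
  simp only [chi, Finsupp.sum, Pi.add_apply, smul_add, Finset.sum_add_distrib]
  rw [add_right_inj, Finset.sum_eq_single p]
  · rw [Pi.single_eq_same]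
  · intro q _ hq
    rw [Pi.single_eq_of_ne hq, smul_zero]
  · intro hp
    rw [Finsupp.notMem_support_iff.1 hp, zero_smul]

/-- the Haar probability measure on the space of parameters -/
noncomputable def mu : Measure (ℕ → UnitAddCircle) := Measure.addHaarMeasure ⊤

instance : mu.IsAddHaarMeasure := by
  unfold mu
  infer_instance

theorem mu_univ : mu univ = 1 := by
  have := Measure.addHaarMeasure_self (K₀ := (⊤ : TopologicalSpace.PositiveCompacts
    (ℕ → UnitAddCircle)))
  rwa [TopologicalSpace.PositiveCompacts.coe_top] at this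

theorem mu_avg {E : Set (ℕ → UnitAddCircle)} (hE : MeasurableSet E) (p : ℕ) :
    mu E = ∫⁻ θ, volume {y : UnitAddCircle | θ + Pi.single p y ∈ E} ∂mu := by
  have hc : Continuous fun q : (ℕ → UnitAddCircle) × UnitAddCircle =>
      q.1 + Pi.single p q.2 :=
    continuous_fst.add ((continuous_single (A := fun _ : ℕ => UnitAddCircle) p).comp
      continuous_snd)
  have hm := hc.measurable hE
  have h1 := Measure.prod_apply (μ := mu) (ν := (volume : Measure UnitAddCircle)) hm
  have h2 := Measure.prod_apply_symm (μ := mu) (ν := (volume : Measure UnitAddCircle)) hm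
  have h3 : ∀ y : UnitAddCircle, mu ((fun θ => (θ, y)) ⁻¹'
      ((fun q : (ℕ → UnitAddCircle) × UnitAddCircle => q.1 + Pi.single p q.2) ⁻¹' E)) = mu E :=
    fun y => measure_preimage_add_right mu (Pi.single p y) E
  simp only [h3, lintegral_const, UnitAddCircle.measure_univ, mul_one] at h2
  rw [← h2, h1]
  rfl

theorem vol_miss {e : ℕ} (he : e ≠ 0) (c z : UnitAddCircle) {ρ δ : ℝ} (hδ : δ ≤ 2 * ρ)
    (hδ0 : 0 ≤ δ) (hδ1 : δ ≤ 1) :
    volume {y : UnitAddCircle | c + e • y ∉ Metric.closedBall z ρ} ≤ ENNReal.ofReal (1 - δ) := by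
  have h1 : MeasurePreserving (fun y : UnitAddCircle => c + (e : ℤ) • y) volume volume :=
    (measurePreserving_add_left volume c).comp
      (Measure.measurePreserving_zsmul volume (Int.natCast_ne_zero.2 he))
  have h2 := h1.measure_preimage (s := (Metric.closedBall z ρ)ᶜ)
    Metric.isClosed_closedBall.measurableSet.compl.nullMeasurableSet
  simp only [natCast_zsmul] at h2
  refine (le_of_eq h2).trans ?_
  rw [measure_compl Metric.isClosed_closedBall.measurableSet (measure_ne_top _ _),
    UnitAddCircle.measure_univ, AddCircle.volume_closedBall, ENNReal.ofReal_sub _ hδ0,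
    ENNReal.ofReal_one]
  exact tsub_le_tsub_left (ENNReal.ofReal_le_ofReal (le_min hδ1 hδ)) _

/-- integers with a prime of their own miss their arcs independently -/
theorem mu_miss (N : Finset ℕ) (z : ℕ → UnitAddCircle) (ρ : ℕ → ℝ) {δ : ℝ} (hδ0 : 0 ≤ δ)
    (hδ1 : δ ≤ 1) (hρ : ∀ n ∈ N, δ ≤ 2 * ρ n)
    (hN : ∀ n ∈ N, ∃ p, n.factorization p ≠ 0 ∧ ∀ m ∈ N, m ≠ n → m.factorization p = 0) :
    mu {θ | ∀ n ∈ N, chi θ n ∉ Metric.closedBall (z n) (ρ n)} ≤
      ENNReal.ofReal (1 - δ) ^ N.card := by
  have hmeas : ∀ M : Finset ℕ,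
      MeasurableSet {θ | ∀ n ∈ M, chi θ n ∉ Metric.closedBall (z n) (ρ n)} := fun M => by
    simp only [ofPred_forall]
    exact M.measurableSet_biInter fun n _ => (chi_continuous n).measurable
      Metric.isClosed_closedBall.measurableSet.compl
  induction N using Finset.induction_on with
  | empty => simp [mu_univ]
  | insert n M hn ih =>
    obtain ⟨p, hp, hp2⟩ := hN n (Finset.mem_insert_self _ _)
    have h1 := ih (fun m hm => hρ m (Finset.mem_insert_of_mem hm)) fun m hm => by
      obtain ⟨q, hq, hq2⟩ := hN m (Finset.mem_insert_of_mem hm)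
      exact ⟨q, hq, fun k hk => hq2 k (Finset.mem_insert_of_mem hk)⟩
    rw [mu_avg (hmeas _) p, Finset.card_insert_of_notMem hn, pow_succ']
    refine le_trans ?_ (mul_le_mul_right h1 _)
    rw [← lintegral_indicator_const (hmeas M)]
    refine lintegral_mono fun θ => ?_
    by_cases hθ : θ ∈ {θ | ∀ n ∈ M, chi θ n ∉ Metric.closedBall (z n) (ρ n)}
    · rw [indicator_of_mem hθ]
      refine le_trans (measure_mono fun y hy => ?_) (vol_miss hp (chi θ n) (z n)
        (hρ n (Finset.mem_insert_self _ _)) hδ0 hδ1)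
      have := hy n (Finset.mem_insert_self _ _)
      rwa [chi_single] at this
    · refine le_trans (measure_mono (t := ∅) fun y hy => hθ fun m hm => ?_) (by simp)
      have := hy m (Finset.mem_insert_of_mem hm)
      rwa [chi_single, hp2 m (Finset.mem_insert_of_mem hm) (fun e => hn (e ▸ hm)), zero_smul,
        add_zero] at this

end Pool.Agent.Lib.MP_65a179_nt.Free
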