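import Mathlib

/-! A function with small range whose second difference vanishes on no proper progression. -/

namespace Pool.Agent.Lib.MP_65a179_nt.Free

/-- the quarters of the digits in base `D`, read in base eight -/
def tag (D : ℕ) : ℕ → ℕ → ℕ
  | 0, _ => 0
  | m + 1, l => 4 * (l % D) / D + 8 * tag D m (l / D)

/-- the sum of the squares of the digits in base `D` -/
def sqd (D : ℕ) : ℕ → ℕ → ℕ
  | 0, _ => 0
  | m + 1, l => (l % D) ^ 2 + sqd D m (l / D)

theorem quarter_lt {D : ℕ} (hD : 0 < D) (l : ℕ) : 4 * (l % D) / D < 4 :=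
  (Nat.div_lt_iff_lt_mul hD).2 (by have := Nat.mod_lt l hD; omega)

theorem tag_lt {D : ℕ} (hD : 0 < D) : ∀ m l, tag D m l < 8 ^ m
  | 0, _ => by simp [tag]
  | m + 1, l => by
    have h1 := tag_lt hD m (l / D)
    have h2 := quarter_lt hD l
    rw [tag, pow_succ]
    omega

theorem sqd_le {D : ℕ} (hD : 0 < D) : ∀ m l, sqd D m l ≤ m * D ^ 2
  | 0, _ => by simp [sqd]
  | m + 1, l => by
    have h1 := sqd_le hD m (l / D)
    have h2 := Nat.pow_le_pow_left (Nat.mod_lt l hD).le 2
    rw [sqd, add_mul, one_mul]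
    omega

theorem no_carry {D x y z p q r : ℕ} (hD : 0 < D) (h : D * p + x + (D * r + z) = 2 * (D * q + y))
    (ht : 4 * x / D + 4 * z / D = 2 * (4 * y / D)) : x + z = 2 * y ∧ p + r = 2 * q := by
  have a1 := Nat.div_add_mod (4 * x) D
  have a2 := Nat.div_add_mod (4 * y) D
  have a3 := Nat.div_add_mod (4 * z) D
  have b1 := Nat.mod_lt (4 * x) hD
  have b2 := Nat.mod_lt (4 * y) hD
  have b3 := Nat.mod_lt (4 * z) hD
  have c : D * (4 * x / D) + D * (4 * z / D) = 2 * (D * (4 * y / D)) := by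
    rw [← mul_add, ht]
    ring
  have e : p + r = 2 * q := by
    rcases lt_trichotomy (p + r) (2 * q) with k | k | k
    · have := Nat.mul_le_mul_left D (show p + r + 1 ≤ 2 * q from k)
      have e1 : D * (p + r + 1) = D * p + D * r + D := by ring
      have e2 : D * (2 * q) = 2 * (D * q) := by ring
      omega
    · exact k
    · have := Nat.mul_le_mul_left D (show 2 * q + 1 ≤ p + r from k)
      have e1 : D * (p + r) = D * p + D * r := by ring
      have e2 : D * (2 * q + 1) = 2 * (D * q) + D := by ring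
      omega
  have e3 : D * p + D * r = 2 * (D * q) := by
    rw [← mul_add, e]
    ring
  exact ⟨by omega, e⟩

theorem sqd_convex {D : ℕ} (hD : 0 < D) : ∀ m a b c, a < D ^ m → b < D ^ m → a + c = 2 * b →
    tag D m a + tag D m c = 2 * tag D m b →
    2 * sqd D m b ≤ sqd D m a + sqd D m c ∧ (sqd D m a + sqd D m c = 2 * sqd D m b → a = b)
  | 0, a, b, c => fun ha hb _ _ => ⟨by simp [sqd], fun _ => by
    rw [pow_zero] at ha hb
    omega⟩
  | m + 1, a, b, c => fun ha hb h ht => by
    simp only [tag] at ht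
    have q1 := quarter_lt hD a
    have q2 := quarter_lt hD b
    have q3 := quarter_lt hD c
    have ht' : 4 * (a % D) / D + 4 * (c % D) / D = 2 * (4 * (b % D) / D) ∧
        tag D m (a / D) + tag D m (c / D) = 2 * tag D m (b / D) := by
      generalize 4 * (a % D) / D = u at *
      generalize 4 * (b % D) / D = v at *
      generalize 4 * (c % D) / D = w at *
      omega
    have d1 := Nat.div_add_mod a D
    have d2 := Nat.div_add_mod b D
    have d3 := Nat.div_add_mod c D
    obtain ⟨e1, e2⟩ := no_carry (x := a % D) (y := b % D) (z := c % D) (p := a / D) (q := b / D)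
      (r := c / D) hD (by rw [d1, d2, d3, h]) ht'.1
    obtain ⟨f1, f2⟩ := sqd_convex hD m (a / D) (b / D) (c / D)
      ((Nat.div_lt_iff_lt_mul hD).2 (by rwa [← pow_succ]))
      ((Nat.div_lt_iff_lt_mul hD).2 (by rwa [← pow_succ])) e2 ht'.2
    simp only [sqd]
    generalize a % D = x at *
    generalize b % D = y at *
    generalize c % D = z at *
    have g : (x : ℤ) ^ 2 + z ^ 2 = 2 * y ^ 2 + 2 * (x - y) ^ 2 := by
      have : (z : ℤ) = 2 * y - x := by omega
      rw [this]
      ring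
    have g0 := sq_nonneg ((x : ℤ) - y)
    have g1 : 2 * y ^ 2 ≤ x ^ 2 + z ^ 2 := by
      zify
      linarith
    refine ⟨by omega, fun k => ?_⟩
    have k1 := f2 (by omega)
    have k2 : x ^ 2 + z ^ 2 = 2 * y ^ 2 := by omega
    have k3 : ((x : ℤ) - y) ^ 2 = 0 := by
      zify at k2
      linarith
    have k4 : x = y := by
      have := pow_eq_zero_iff (two_ne_zero) |>.1 k3
      omega
    rw [← d1, ← d2, k1, k4]

/-- the statistic at level `j` -/
def gg (j l : ℕ) : ℕ :=
  2 ^ (5 * j + 6) * (l % 4 + 8 * tag (2 ^ (2 * j + 2)) (j + 1) l) + sqd (2 ^ (2 * j + 2)) (j + 1) l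

theorem sqd_lev (j l : ℕ) : 4 * sqd (2 ^ (2 * j + 2)) (j + 1) l ≤ 2 ^ (5 * j + 6) := by
  have h1 := sqd_le (pow_pos two_pos (2 * j + 2)) (j + 1) l
  have h2 : j + 1 ≤ 2 ^ j := Nat.lt_two_pow_self
  have h3 : 2 ^ (5 * j + 6) = 4 * (2 ^ j * (2 ^ (2 * j + 2)) ^ 2) := by ring
  have h4 := Nat.mul_le_mul_right ((2 ^ (2 * j + 2)) ^ 2) h2
  omega

theorem gg_le (j l : ℕ) : gg j l ≤ 2 ^ (8 * j + 12) := by
  have h1 := sqd_lev j l
  have h2 := tag_lt (pow_pos two_pos (2 * j + 2)) (j + 1) l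
  have h3 : l % 4 + 8 * tag (2 ^ (2 * j + 2)) (j + 1) l + 1 ≤ 8 * 8 ^ (j + 1) := by omega
  have h4 := Nat.mul_le_mul_left (2 ^ (5 * j + 6)) h3
  have h5 : 2 ^ (5 * j + 6) * (8 * 8 ^ (j + 1)) = 2 ^ (8 * j + 12) := by
    rw [show (8 : ℕ) = 2 ^ 3 by norm_num, ← pow_mul]
    ring
  rw [mul_add, mul_one] at h4
  rw [gg]
  omega

theorem gg_free {j a b c : ℕ} (ha : a < 2 ^ (2 * (j + 1) ^ 2)) (hb : b < 2 ^ (2 * (j + 1) ^ 2))
    (h1 : a + c < 2 * b + 2) (h2 : 2 * b < a + c + 2) (h : gg j a + gg j c = 2 * gg j b) :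
    a = b := by
  have e : 2 ^ (2 * (j + 1) ^ 2) = (2 ^ (2 * j + 2)) ^ (j + 1) := by
    rw [← pow_mul]
    congr 1
    ring
  rw [e] at ha hb
  have s1 := sqd_lev j a
  have s2 := sqd_lev j b
  have s3 := sqd_lev j c
  have hc := sqd_convex (pow_pos two_pos (2 * j + 2)) (j + 1) a b c ha hb
  have hW : 0 < 2 ^ (5 * j + 6) := pow_pos two_pos _
  simp only [gg] at h
  generalize 2 ^ (5 * j + 6) = W at *
  generalize tag (2 ^ (2 * j + 2)) (j + 1) = T at *
  generalize sqd (2 ^ (2 * j + 2)) (j + 1) = Q at *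
  have k : a % 4 + 8 * T a + (c % 4 + 8 * T c) = 2 * (b % 4 + 8 * T b) := by
    generalize a % 4 + 8 * T a = p at *
    generalize b % 4 + 8 * T b = q at *
    generalize c % 4 + 8 * T c = r at *
    rcases lt_trichotomy (p + r) (2 * q) with k | k | k
    · have := Nat.mul_le_mul_left W (show p + r + 1 ≤ 2 * q from k)
      have e1 : W * (p + r + 1) = W * p + W * r + W := by ring
      have e2 : W * (2 * q) = 2 * (W * q) := by ring
      omega
    · exact k
    · have := Nat.mul_le_mul_left W (show 2 * q + 1 ≤ p + r from k)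
      have e1 : W * (p + r) = W * p + W * r := by ring
      have e2 : W * (2 * q + 1) = 2 * (W * q) + W := by ring
      omega
  have k2 : W * (a % 4 + 8 * T a) + W * (c % 4 + 8 * T c) = 2 * (W * (b % 4 + 8 * T b)) := by
    rw [← mul_add, k]
    ring
  exact (hc (by omega) (by omega)).2 (by omega)

end Pool.Agent.Lib.MP_65a179_nt.Free
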