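import Pool.Agent.Lib.MP_65a179_nt.Free.Main
import Pool.Agent.Lib.MP_65a179_nt.Free.Tag

/-!
A set all of whose three-term geometric progressions have ratio close to one, with almost
logarithmic gaps.
-/

open MeasureTheory Set Filter
open scoped ENNReal

namespace Pool.Agent.Lib.MP_65a179_nt.Free

/-- the position of `n` on the logarithmic scale of level `j` -/
def ll (j n : ℕ) : ℕ := Nat.log 2 (n ^ 2 ^ (j + 1) ^ 2)

/-- the number of arcs at level `j` -/
noncomputable def mr (j : ℕ) : ℝ := 8 * 2 ^ (8 * j + 12)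

/-- the centre of the arc of `n` -/
noncomputable def cenr (n : ℕ) : ℝ := sc (lev n) * (1 - gg (lev n) (ll (lev n) n) / mr (lev n))

/-- the radius of the arcs at level `j` -/
noncomputable def radr (j : ℕ) : ℝ := sc j / (8 * mr j)

/-- the set -/
def SR (θ : ℕ → UnitAddCircle) : Set ℕ :=
  {n | 0 < n ∧ chi θ n ∈ Metric.closedBall ((cenr n : ℝ) : UnitAddCircle) (radr (lev n))}

theorem le_mr (j : ℕ) : 8 ≤ mr j :=
  le_mul_of_one_le_right (by norm_num) (one_le_pow₀ one_le_two)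

theorem mr_mono {i j : ℕ} (h : i ≤ j) : mr i ≤ mr j := by
  unfold mr
  gcongr
  exact one_le_two

theorem radr_anti {i j : ℕ} (h : i ≤ j) : radr j ≤ radr i :=
  div_le_div₀ (sc_pos i).le (sc_anti h) (by linarith [le_mr i]) (by linarith [mr_mono h])

theorem radr_le (j : ℕ) : 0 < radr j ∧ radr j ≤ sc j / 32 :=
  ⟨div_pos (sc_pos j) (by linarith [le_mr j]),
    div_le_div_of_nonneg_left (sc_pos j).le (by norm_num) (by linarith [le_mr j])⟩

theorem cenr_bd (n : ℕ) : 7 / 8 * sc (lev n) ≤ cenr n ∧ cenr n ≤ sc (lev n) := by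
  have h0 : 0 < mr (lev n) := by linarith [le_mr (lev n)]
  have h1 : (gg (lev n) (ll (lev n) n) : ℝ) ≤ 2 ^ (8 * lev n + 12) := by
    exact_mod_cast gg_le _ _
  have h2 : (gg (lev n) (ll (lev n) n) : ℝ) / mr (lev n) ≤ 1 / 8 := by
    rw [div_le_iff₀ h0, mr]
    linarith
  have h3 : 0 ≤ (gg (lev n) (ll (lev n) n) : ℝ) / mr (lev n) := by positivity
  have h4 := sc_pos (lev n)
  unfold cenr
  constructor <;> nlinarith

theorem lt_two_pow (n : ℕ) : n < 2 ^ 2 ^ (lev n + 1) ^ 2 :=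
  (Nat.lt_pow_succ_log_self one_lt_two n).trans_le (Nat.pow_le_pow_right two_pos (log_lt n))

theorem ll_lt {n : ℕ} (hn : n ≠ 0) : ll (lev n) n < 2 ^ (2 * (lev n + 1) ^ 2) := by
  refine Nat.log_lt_of_lt_pow (pow_ne_zero _ hn) ?_
  rw [two_mul, pow_add, pow_mul]
  exact Nat.pow_lt_pow_left (lt_two_pow n) (pow_ne_zero _ two_ne_zero)

theorem log_ap {A B C : ℕ} (hA : A ≠ 0) (hB : B ≠ 0) (hC : C ≠ 0) (h : A * C = B * B) :
    Nat.log 2 A + Nat.log 2 C < 2 * Nat.log 2 B + 2 ∧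
      2 * Nat.log 2 B < Nat.log 2 A + Nat.log 2 C + 2 := by
  have a1 := Nat.pow_log_le_self 2 hA
  have b1 := Nat.pow_log_le_self 2 hB
  have c1 := Nat.pow_log_le_self 2 hC
  have a2 := Nat.lt_pow_succ_log_self one_lt_two A
  have b2 := Nat.lt_pow_succ_log_self one_lt_two B
  have c2 := Nat.lt_pow_succ_log_self one_lt_two C
  constructor
  · have h1 := (Nat.mul_le_mul a1 c1).trans_lt (h.trans_lt (Nat.mul_lt_mul'' b2 b2))
    rw [← pow_add, ← pow_add] at h1
    have := (Nat.pow_lt_pow_iff_right one_lt_two).1 h1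
    omega
  · have h1 := (Nat.mul_le_mul b1 b1).trans_lt (h.symm.trans_lt (Nat.mul_lt_mul'' a2 c2))
    rw [← pow_add, ← pow_add] at h1
    have := (Nat.pow_lt_pow_iff_right one_lt_two).1 h1
    omega

theorem freer_lt (θ : ℕ → UnitAddCircle) {a b c : ℕ} (ha : a ∈ SR θ) (hb : b ∈ SR θ)
    (hc : c ∈ SR θ) (h : a * c = b * b) (hab : a < b) :
    b ^ 2 ^ (lev c + 1) ^ 2 < 2 * a ^ 2 ^ (lev c + 1) ^ 2 := by
  have ha0 := ha.1.ne'
  have hb0 := hb.1.ne'
  have hc0 := hc.1.ne'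
  have hbc : b < c := by
    by_contra hn
    have := Nat.mul_lt_mul_of_lt_of_le hab (not_lt.1 hn) hb.1
    omega
  have h1 : chi θ a + chi θ c = chi θ b + chi θ b := by
    rw [← chi_mul θ ha0 hc0, h, chi_mul θ hb0 hb0]
  have h2 : ((cenr a + cenr c - 2 * cenr b : ℝ) : UnitAddCircle) =
      (chi θ b - cenr b) + (chi θ b - cenr b) - ((chi θ a - cenr a) + (chi θ c - cenr c)) := by
    rw [two_mul, AddCircle.coe_sub, AddCircle.coe_add, AddCircle.coe_add,
      sub_add_sub_comm, sub_add_sub_comm, h1]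
    abel
  have h3 : ‖((cenr a + cenr c - 2 * cenr b : ℝ) : UnitAddCircle)‖ ≤
      radr (lev b) + radr (lev b) + (radr (lev a) + radr (lev c)) := by
    rw [h2]
    have ea := mem_closedBall_iff_norm.1 ha.2
    have eb := mem_closedBall_iff_norm.1 hb.2
    have ec := mem_closedBall_iff_norm.1 hc.2
    exact (norm_sub_le _ _).trans (add_le_add ((norm_add_le _ _).trans (add_le_add eb eb))
      ((norm_add_le _ _).trans (add_le_add ea ec)))
  have l1 := lev_mono hab.le
  have l2 := lev_mono hbc.le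
  obtain ⟨a1, a2⟩ := cenr_bd a
  obtain ⟨b1, b2⟩ := cenr_bd b
  obtain ⟨c1, c2⟩ := cenr_bd c
  have pa := sc_pos (lev a)
  have pb := sc_pos (lev b)
  have pc := sc_pos (lev c)
  have qa := sc_le (lev a)
  have qb := sc_le (lev b)
  have qc := sc_le (lev c)
  rw [(AddCircle.norm_coe_eq_abs_iff (1 : ℝ) one_ne_zero).2
    (by rw [abs_one]; exact abs_le.2 ⟨by linarith, by linarith⟩)] at h3
  have h4 := abs_le.1 h3
  have r1 := radr_anti l1
  have r2 := radr_anti l2
  have r3 := (radr_le (lev a)).2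
  rcases l1.eq_or_lt with e1 | e1
  · rcases l2.eq_or_lt with e2 | e2
    · have h0 : 0 < mr (lev a) := by linarith [le_mr (lev a)]
      have h6 : cenr a + cenr c - 2 * cenr b = -(8 * radr (lev a) *
          (gg (lev a) (ll (lev a) a) + gg (lev a) (ll (lev a) c) -
            2 * gg (lev a) (ll (lev a) b))) := by
        rw [cenr, cenr, cenr, ← e2, ← e1, radr]
        field_simp
        ring
      have h7 := (radr_le (lev a)).1
      have k1 : (gg (lev a) (ll (lev a) a) + gg (lev a) (ll (lev a) c) : ℝ) <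
          2 * gg (lev a) (ll (lev a) b) + 1 := by
        by_contra hn
        nlinarith [h4.1]
      have k2 : (2 * gg (lev a) (ll (lev a) b) : ℝ) <
          gg (lev a) (ll (lev a) a) + gg (lev a) (ll (lev a) c) + 1 := by
        by_contra hn
        nlinarith [h4.2]
      have k3 : gg (lev a) (ll (lev a) a) + gg (lev a) (ll (lev a) c) <
          2 * gg (lev a) (ll (lev a) b) + 1 := by exact_mod_cast k1
      have k4 : 2 * gg (lev a) (ll (lev a) b) <
          gg (lev a) (ll (lev a) a) + gg (lev a) (ll (lev a) c) + 1 := by exact_mod_cast k2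
      obtain ⟨m1, m2⟩ := log_ap (pow_ne_zero (2 ^ (lev a + 1) ^ 2) ha0)
        (pow_ne_zero (2 ^ (lev a + 1) ^ 2) hb0) (pow_ne_zero (2 ^ (lev a + 1) ^ 2) hc0)
        (by rw [← mul_pow, ← mul_pow, h])
      have m3 := ll_lt hb0
      rw [← e1] at m3
      have m4 : ll (lev a) a = ll (lev a) b :=
        gg_free (c := ll (lev a) c) (ll_lt ha0) m3 m1 m2 (by omega)
      have m5 := Nat.lt_pow_succ_log_self one_lt_two (b ^ 2 ^ (lev a + 1) ^ 2)
      have m6 := Nat.pow_log_le_self 2 (pow_ne_zero (2 ^ (lev a + 1) ^ 2) ha0)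
      unfold ll at m4
      rw [← m4] at m5
      rw [← e2, ← e1]
      exact m5.trans_le ((pow_succ' 2 _).trans_le (Nat.mul_le_mul_left 2 m6))
    · have := sc_lt e2
      rw [← e1] at b1 this
      exfalso
      linarith [h4.1]
  · have := sc_lt e1
    exfalso
    linarith [h4.2]

/-- a quarter of the length of the window -/
def hr (j : ℕ) : ℕ := 2 ^ (j ^ 2 + 12 * j + 31)

theorem hr_le {x : ℕ} (hx : 2 ≤ x) (hj : 3 ≤ lev x) : (8 * hr (lev x)) ^ 4 ≤ x := by
  refine le_trans (Nat.pow_le_pow_left (Nat.mul_le_mul_left _ ?_) _) (hh_le hx hj)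
  exact Nat.pow_le_pow_right two_pos (by nlinarith)

theorem radr_hr (j : ℕ) : 2 * radr (j + 1) * hr j = 2 * 2 ^ (j + 1) ^ 2 := by
  have h1 : (hr j : ℝ) = 4 ^ (j + 1 + 1) * 2 ^ (8 * (j + 1) + 12) * 64 * 2 ^ (j + 1) ^ 2 := by
    rw [hr, show (4 : ℝ) = 2 ^ 2 by norm_num, show (64 : ℝ) = 2 ^ 6 by norm_num, ← pow_mul,
      ← pow_add, ← pow_add, ← pow_add]
    push_cast
    congr 1
    ring
  rw [h1, radr, sc, mr, one_div, inv_pow]
  field_simp
  norm_num

theorem mu_badr {x : ℕ} (hx : 2 ≤ x) (hj : 3 ≤ lev x) :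
    mu {θ | ¬∃ t ∈ SR θ, x < t ∧ t ≤ x + 4 * hr (lev x)} ≤ ENNReal.ofReal (1 / (x : ℝ) ^ 2) := by
  classical
  have h0 : 0 < hr (lev x) := pow_pos two_pos _
  have h1 := hr_le hx hj
  have h2 := card_rough h0 h1
  have h3 : 8 * hr (lev x) ≤ x := (Nat.le_self_pow (by norm_num) _).trans h1
  set R := (Finset.range (4 * hr (lev x))).filter
    fun i => ∃ p : ℕ, p.Prime ∧ 4 * hr (lev x) < p ∧ p ∣ x + 1 + i with hR
  have hδ0 := (radr_le (lev x + 1)).1
  have hδ1 : 2 * radr (lev x + 1) ≤ 1 := by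
    linarith [(radr_le (lev x + 1)).2, sc_le (lev x + 1)]
  have h4 := mu_miss (R.image fun i => x + 1 + i) (fun n => ((cenr n : ℝ) : UnitAddCircle))
    (fun n => radr (lev n)) (δ := 2 * radr (lev x + 1)) (by linarith) hδ1
    (fun n hn => by
      obtain ⟨i, hi, rfl⟩ := Finset.mem_image.1 hn
      have := Finset.mem_range.1 (Finset.mem_filter.1 hi).1
      linarith [radr_anti (lev_two_mul (x := x) (n := x + 1 + i) (by omega) (by omega))])
    (fun n hn => by
      obtain ⟨i, hi, rfl⟩ := Finset.mem_image.1 hn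
      obtain ⟨hi1, p, hp, hp1, hp2⟩ := Finset.mem_filter.1 hi
      refine ⟨p, (hp.factorization_pos_of_dvd (by omega) hp2).ne', fun m hm hne => ?_⟩
      obtain ⟨k, hk, rfl⟩ := Finset.mem_image.1 hm
      refine Nat.factorization_eq_zero_of_not_dvd fun hd => ?_
      have hi2 := Finset.mem_range.1 hi1
      have hk2 := Finset.mem_range.1 (Finset.mem_filter.1 hk).1
      rcases lt_or_gt_of_ne hne with h5 | h5
      · have := Nat.le_of_dvd (by omega) (Nat.dvd_sub hp2 hd)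
        omega
      · have := Nat.le_of_dvd (by omega) (Nat.dvd_sub hd hp2)
        omega)
  rw [Finset.card_image_of_injective _ (add_right_injective _)] at h4
  refine le_trans (measure_mono ?_) (h4.trans ?_)
  · refine fun θ hθ n hn hm => hθ ?_
    obtain ⟨i, hi, rfl⟩ := Finset.mem_image.1 hn
    have := Finset.mem_range.1 (Finset.mem_filter.1 hi).1
    exact ⟨x + 1 + i, ⟨by omega, hm⟩, by omega, by omega⟩
  · rw [← ENNReal.ofReal_pow (by linarith)]
    refine ENNReal.ofReal_le_ofReal ((pow_le_pow_of_le_one (by linarith) (by linarith) h2).trans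
      ((pow_le_pow_left₀ (by linarith) (Real.one_sub_le_exp_neg _) _).trans ?_))
    have hx0 : (0 : ℝ) < x := by exact_mod_cast (by omega : 0 < x)
    have h5 : Real.log x ≤ 2 ^ (lev x + 1) ^ 2 := by
      have h6 : (x : ℝ) ≤ 2 ^ (2 ^ (lev x + 1) ^ 2 : ℕ) := by
        exact_mod_cast (Nat.lt_pow_succ_log_self one_lt_two x).le.trans
          (Nat.pow_le_pow_right two_pos (log_lt x))
      refine (Real.log_le_log hx0 h6).trans ?_
      rw [Real.log_pow]
      push_cast
      exact mul_le_of_le_one_right (by positivity) (by linarith [Real.log_two_lt_d9])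
    rw [← Real.exp_nat_mul, one_div, ← Real.exp_log (pow_pos hx0 2), ← Real.exp_neg,
      Real.exp_le_exp, Real.log_pow]
    push_cast
    linarith [radr_hr (lev x)]

theorem exists_goodr : ∃ θ x0, ∀ x, x0 ≤ x → ∃ t ∈ SR θ, x < t ∧ t ≤ x + 4 * hr (lev x) := by
  have h1 : ∑' x : ℕ, mu {θ | 2 ≤ x ∧ 3 ≤ lev x ∧
      ¬∃ t ∈ SR θ, x < t ∧ t ≤ x + 4 * hr (lev x)} ≠ ∞ := by
    refine ne_top_of_le_ne_top (Real.summable_one_div_nat_pow.2 one_lt_two).tsum_ofReal_ne_top
      (ENNReal.tsum_le_tsum fun x => ?_)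
    by_cases h : 2 ≤ x ∧ 3 ≤ lev x
    · exact (measure_mono fun θ hθ => hθ.2.2).trans (mu_badr h.1 h.2)
    · exact (measure_mono (t := ∅) fun θ hθ => h ⟨hθ.1, hθ.2.1⟩).trans (by simp)
  have h2 : mu ≠ 0 := fun e => by simpa [e] using mu_univ
  have := ae_neBot.2 h2
  obtain ⟨θ, hθ⟩ := (ae_eventually_notMem h1).exists
  obtain ⟨x1, hx1⟩ := eventually_atTop.1 hθ
  obtain ⟨x2, hx2⟩ : ∃ x2, 3 ≤ lev x2 := ⟨2 ^ 2 ^ 3 ^ 2, by
    rw [lev, Nat.log_pow one_lt_two, Nat.log_pow one_lt_two, Nat.sqrt_eq']⟩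
  refine ⟨θ, x1 + x2 + 2, fun x hx => ?_⟩
  by_contra hn
  exact hx1 x (by omega) ⟨by omega, hx2.trans (lev_mono (by omega)), hn⟩

theorem hr_log {x : ℕ} (hx : 3 ≤ x) :
    (4 * hr (lev x) : ℝ) ≤ 2 ^ 46 * Real.log x * Real.exp (13 * √(Real.log (Real.log x))) := by
  have hx0 : (0 : ℝ) < x := by exact_mod_cast (by omega : 0 < x)
  have hl1 : 1 ≤ Real.log x := by
    rw [Real.le_log_iff_exp_le hx0]
    exact Real.exp_one_lt_three.le.trans (by exact_mod_cast hx)
  have hll : 0 ≤ Real.log (Real.log x) := Real.log_nonneg hl1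
  have l2 := Real.log_two_gt_d9
  have l2' := Real.log_two_lt_d9
  have h1 : (2 : ℝ) ^ lev x ^ 2 ≤ 2 * Real.log x := by
    have h2 : (2 : ℝ) ^ (2 ^ lev x ^ 2 : ℕ) ≤ x := by
      exact_mod_cast (Nat.pow_le_pow_right two_pos (le_log (by omega))).trans
        (Nat.pow_log_le_self 2 (by omega))
    have h3 := Real.log_le_log (by positivity) h2
    rw [Real.log_pow] at h3
    push_cast at h3
    have h4 : (0 : ℝ) ≤ 2 ^ lev x ^ 2 := by positivity
    nlinarith
  have h2 : (lev x : ℝ) ^ 2 * Real.log 2 ≤ Real.log 2 + Real.log (Real.log x) := by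
    have h3 := Real.log_le_log (by positivity) h1
    rw [Real.log_pow, Real.log_mul two_ne_zero (by linarith)] at h3
    push_cast at h3
    exact h3
  set s := √(Real.log (Real.log x)) with hs
  have hs0 : 0 ≤ s := Real.sqrt_nonneg _
  have hs2 : s ^ 2 = Real.log (Real.log x) := Real.sq_sqrt hll
  have h3 : (lev x : ℝ) ≤ 1 + 3 / 2 * s := by
    refine (pow_le_pow_iff_left₀ (by positivity) (by positivity) two_ne_zero).1 ?_
    have : (lev x : ℝ) ^ 2 * Real.log 2 ≤ (1 + 3 / 2 * s) ^ 2 * Real.log 2 := by nlinarith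
    exact le_of_mul_le_mul_right this (by linarith)
  have h4 : (2 : ℝ) ^ (12 * lev x) ≤ 2 ^ 12 * Real.exp (13 * s) := by
    have e : ∀ k : ℕ, (2 : ℝ) ^ k = Real.exp (k * Real.log 2) := fun k => by
      rw [Real.exp_nat_mul, Real.exp_log two_pos]
    rw [e, e, ← Real.exp_add, Real.exp_le_exp]
    push_cast
    nlinarith
  have h6 : (4 * hr (lev x) : ℝ) = 2 ^ 33 * 2 ^ lev x ^ 2 * 2 ^ (12 * lev x) := by
    rw [hr]
    push_cast
    ring
  rw [h6]
  calc (2 : ℝ) ^ 33 * 2 ^ lev x ^ 2 * 2 ^ (12 * lev x)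
      ≤ 2 ^ 33 * (2 * Real.log x) * (2 ^ 12 * Real.exp (13 * s)) := by gcongr
    _ = 2 ^ 46 * Real.log x * Real.exp (13 * s) := by ring

theorem mainr : ∃ S : Set ℕ, (∀ n ∈ S, 0 < n) ∧
    (∀ a ∈ S, ∀ b ∈ S, ∀ c ∈ S, ∀ r : ℚ, (b : ℚ) = r * a → (c : ℚ) = r * b →
      ((r : ℝ) - 1) * Real.log c < 1) ∧
    ∃ A : ℝ, ∀ x : ℕ, 3 ≤ x → ∃ t ∈ S, x < t ∧
      (t : ℝ) - x ≤ A * Real.log x * Real.exp (13 * √(Real.log (Real.log x))) := by
  obtain ⟨θ, x0, h⟩ := exists_goodr
  refine ⟨SR θ, fun n hn => hn.1, fun a ha b hb c hc r h1 h2 => ?_, ?_⟩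
  · have hl : 0 ≤ Real.log c := Real.log_natCast_nonneg c
    rcases le_or_gt r 1 with hr | hr
    · have : (r : ℝ) ≤ 1 := by exact_mod_cast hr
      nlinarith
    have h3 : (a : ℚ) * c = b * b := by
      rw [h2]
      linear_combination (-b : ℚ) * h1
    have a0 : (0 : ℚ) < a := by exact_mod_cast ha.1
    have h4 : (a : ℚ) < b := by rw [h1]; nlinarith
    have h5 := freer_lt θ ha hb hc (by exact_mod_cast h3) (by exact_mod_cast h4)
    have h6 := lt_two_pow c
    generalize 2 ^ (lev c + 1) ^ 2 = K at h5 h6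
    have a1 : (0 : ℝ) < a := by exact_mod_cast ha.1
    have c1 : (0 : ℝ) < c := by exact_mod_cast hc.1
    have r1 : (1 : ℝ) < r := by exact_mod_cast hr
    have e1 : (b : ℝ) = r * a := by exact_mod_cast h1
    have h7 : (b : ℝ) ^ K < 2 * (a : ℝ) ^ K := by exact_mod_cast h5
    rw [e1, mul_pow] at h7
    have h8 := lt_of_mul_lt_mul_right h7 (by positivity)
    have h9 := one_add_mul_le_pow (show (-2 : ℝ) ≤ r - 1 by linarith) K
    rw [add_sub_cancel] at h9
    have h10 : Real.log c ≤ K := by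
      have : (c : ℝ) ≤ 2 ^ K := by exact_mod_cast h6.le
      refine (Real.log_le_log c1 this).trans ?_
      rw [Real.log_pow]
      exact mul_le_of_le_one_right (by positivity) (by linarith [Real.log_two_lt_d9])
    nlinarith
  · obtain ⟨t0, ht0, ht1, -⟩ := h x0 le_rfl
    refine ⟨2 ^ 46 + t0, fun x hx => ?_⟩
    have hl1 : 1 ≤ Real.log x := by
      rw [Real.le_log_iff_exp_le (by positivity)]
      exact Real.exp_one_lt_three.le.trans (by exact_mod_cast hx)
    have h1 : 1 ≤ Real.log x * Real.exp (13 * √(Real.log (Real.log x))) :=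
      one_le_mul_of_one_le_of_one_le hl1 (Real.one_le_exp (by positivity))
    have h3 : (t0 : ℝ) ≤ t0 * (Real.log x * Real.exp (13 * √(Real.log (Real.log x)))) :=
      le_mul_of_one_le_right (by positivity) h1
    have h4 : (0 : ℝ) ≤ x := by positivity
    have h5 : (0 : ℝ) ≤ t0 := by positivity
    have h8 := hr_log hx
    rw [mul_assoc] at h8
    rw [mul_assoc, add_mul]
    rcases le_total x0 x with h6 | h6
    · obtain ⟨t, ht, ht2, ht3⟩ := h x h6
      have h7 : (t : ℝ) ≤ x + 4 * hr (lev x) := by exact_mod_cast ht3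
      exact ⟨t, ht, ht2, by linarith⟩
    · exact ⟨t0, ht0, by omega, by linarith⟩

end Pool.Agent.Lib.MP_65a179_nt.Free
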